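import Pool.Agent.Lib.MP_7f581e_K.Spec3

/-!
# C33, Part III: from the data with `d = 1` to a lift (after `MP_7f581e_Z/CS/Back.lean`)
-/

set_option autoImplicit false

namespace MP7K

open MP7Z

namespace LBackFM

section

variable {p : ℕ} [Fact p.Prime] {Ω : Type} [Field Ω] [Algebra (ZMod p) Ω]

theorem Back_cst (τ : Ω ≃ₐ[ZMod p] Ω) {c : Ω} (hc : c ∈ Cst p Ω) : τ c ∈ Cst p Ω := by
  rw [mem_algebraicClosure_iff] at hc ⊢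
  exact IsAlgebraic.algHom τ.toAlgHom hc

theorem Back_geo (τ : Ω ≃ₐ[ZMod p] Ω) {v : Ω ≃ₐ[ZMod p] Ω} (hv : v ∈ geo p Ω) :
    τ * v * τ⁻¹ ∈ geo p Ω := by
  intro c hc
  have h1 : τ⁻¹ c ∈ Cst p Ω := Back_cst _ hc
  change τ (v (τ⁻¹ c)) = c
  rw [hv _ h1]
  exact τ.apply_symm_apply c

theorem Back_root {ℓ : ℕ} (hℓ : 0 < ℓ) {c : Ω} (hc : c ^ ℓ = 1) : c ∈ Cst p Ω := by
  rw [mem_algebraicClosure_iff]
  exact IsAlgebraic.of_pow hℓ (by rw [hc]; exact isAlgebraic_one)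

theorem Back_cast {ℓ : ℕ} (hℓ : ℓ.Prime) (hne : ℓ ≠ p) : (ℓ : Ω) ≠ 0 := by
  have : CharP Ω p := charP_of_injective_algebraMap (algebraMap (ZMod p) Ω).injective p
  intro h
  rw [CharP.cast_eq_zero_iff Ω p ℓ] at h
  exact hne ((Nat.prime_dvd_prime_iff_eq (Fact.out : p.Prime) hℓ).1 h).symm

end

end LBackFM

open LBackFM

theorem lBackF (hBExt : CStmtBExt) : LStmtBackF := by
  classical
  intro p _ ℓ hℓ hℓp Ω _ _ x hst H hHle P _ ρ hρfl φ a hφ ha hfr hDG P' _ _ f hf e he t z w hD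
  have hz0' : z ≠ 0 := hD.z0
  have hw0 := hD.w0
  have h1 := hD.tm
  have h0 := hD.t0
  have h2 := hD.tk
  have h2' := hD.ts
  have h3 := hD.zt
  have h4 := hD.wt
  have h5 : φ z = w ^ ℓ * z := by
    have h := hD.zd
    rw [one_mul] at h
    exact h
  have hsc : IsSepClosed Ω := hst.sepClosed
  have hℓ0 : 0 < ℓ := hℓ.pos
  have : NeZero (ℓ : Ω) := ⟨Back_cast hℓ hℓp⟩
  obtain ⟨y, hy⟩ := IsSepClosed.exists_pow_nat_eq z ℓ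
  have hy0 : y ≠ 0 := by
    rintro rfl
    rw [zero_pow hℓ0.ne'] at hy
    exact hz0' hy.symm
  -- the unit `ε`
  have hφyw : (φ y) ^ ℓ = (w * y) ^ ℓ := by
    rw [← map_pow, hy, h5, mul_pow, hy]
  have hwy0 : w * y ≠ 0 := mul_ne_zero hw0 hy0
  obtain ⟨ε, hε, hφy⟩ : ∃ ε : Ω, ε ^ ℓ = 1 ∧ φ y = ε * w * y := by
    refine ⟨φ y / (w * y), ?_, ?_⟩
    · rw [div_pow, hφyw, div_self (pow_ne_zero _ hwy0)]
    · rw [mul_assoc, div_mul_cancel₀ _ hwy0]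
  have hεc : ε ∈ Cst p Ω := Back_root hℓ0 hε
  have hε0 : ε ≠ 0 := by
    rintro rfl
    rw [zero_pow hℓ0.ne'] at hε
    exact zero_ne_one hε
  set w' : Ω := ε * w with hw'
  have hw'0 : w' ≠ 0 := mul_ne_zero hε0 hw0
  have h4' : ∀ (γ : Ω ≃ₐ[ZMod p] Ω) (hγ : γ ∈ H), γ ∈ geo p Ω → ∀ g : P', f g = ρ ⟨γ, hγ⟩ →
      φ (t g) * w' = t (e * g * e⁻¹) * (φ * γ * φ⁻¹) w' := by
    intro γ hγ hγ' g hg
    have h := h4 γ hγ hγ' g hg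
    have h' : (φ * γ * φ⁻¹) ε = ε := Back_geo φ hγ' ε hεc
    rw [hw', map_mul, h']
    calc φ (t g) * (ε * w) = ε * (φ (t g) * w) := by ring
      _ = _ := by rw [h]; ring
  -- elements over the identity
  have ht1 : t 1 = 1 := by
    have h := h1 1 (one_mem _) (one_mem _) 1 1 (by rw [map_one]; exact (map_one ρ).symm)
      ⟨1, one_mem _, one_mem _, by rw [map_one]; exact (map_one ρ).symm⟩
    have h' := h0 1 (one_mem _) (one_mem _) 1 (by rw [map_one]; exact (map_one ρ).symm)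
    rw [mul_one] at h
    have h'' : t 1 * 1 = t 1 * t 1 := by rw [mul_one]; exact h
    exact (mul_left_cancel₀ h' h'').symm
  have hkt : ∀ b ∈ f.ker, ∀ γ ∈ geo p Ω, γ (t b) = t b := by
    intro b hb γ hγ
    exact hγ _ (Back_root hℓ0 (h2 b hb).1)
  -- existence and uniqueness
  have huniq : ∀ (γ : Ω ≃ₐ[ZMod p] Ω) (hγ : γ ∈ H), γ ∈ geo p Ω → ∀ g g' : P',
      f g = ρ ⟨γ, hγ⟩ → f g' = ρ ⟨γ, hγ⟩ → t g * y = t g' * y → g = g' := by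
    intro γ hγ hγ' g g' hg hg' ht
    have ht' : t g = t g' := mul_right_cancel₀ hy0 ht
    have hb : g⁻¹ * g' ∈ f.ker := by
      rw [MonoidHom.mem_ker, map_mul, map_inv, hg, hg', inv_mul_cancel]
    have h := h1 γ hγ hγ' g (g⁻¹ * g') hg ⟨1, one_mem _, one_mem _, by
      rw [MonoidHom.mem_ker.1 hb]; exact (map_one ρ).symm⟩
    rw [mul_inv_cancel_left, hkt _ hb γ hγ', ← ht'] at h
    have h'' : t g * t (g⁻¹ * g') = t g * 1 := by rw [mul_one]; exact h.symm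
    have h3' : t (g⁻¹ * g') = 1 := mul_left_cancel₀ (h0 γ hγ hγ' g hg) h''
    have h4'' := (h2 _ hb).2 h3'
    exact inv_mul_eq_one.1 h4''
  have hex : ∀ (γ : Ω ≃ₐ[ZMod p] Ω) (hγ : γ ∈ H), γ ∈ geo p Ω → ∃ g : P',
      f g = ρ ⟨γ, hγ⟩ ∧ t g * y = γ y := by
    intro γ hγ hγ'
    obtain ⟨g₀, hg₀⟩ := hf (ρ ⟨γ, hγ⟩)
    have hg₀0 := h0 γ hγ hγ' g₀ hg₀
    have hty0 : t g₀ * y ≠ 0 := mul_ne_zero hg₀0 hy0
    have hpow : (γ y) ^ ℓ = (t g₀ * y) ^ ℓ := by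
      rw [← map_pow, hy, h3 γ hγ hγ' g₀ hg₀, mul_pow, hy]
    obtain ⟨b, hb, hbt⟩ := h2' (γ y / (t g₀ * y)) (by
      rw [div_pow, hpow, div_self (pow_ne_zero _ hty0)])
    refine ⟨g₀ * b, ?_, ?_⟩
    · rw [map_mul, MonoidHom.mem_ker.1 hb, mul_one, hg₀]
    · rw [h1 γ hγ hγ' g₀ b hg₀ ⟨1, one_mem _, one_mem _, by
        rw [MonoidHom.mem_ker.1 hb]; exact (map_one ρ).symm⟩, hkt _ hb γ hγ', hbt]
      rw [mul_assoc, div_mul_eq_mul_div, mul_div_assoc']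
      rw [div_eq_iff hty0]
      ring
  choose! Ψ₀ hΨ₀ using fun (γ : Ω ≃ₐ[ZMod p] Ω) (h : γ ∈ H ⊓ geo p Ω) => hex γ h.1 h.2
  have hΨf : ∀ (γ : Ω ≃ₐ[ZMod p] Ω) (h : γ ∈ H ⊓ geo p Ω), f (Ψ₀ γ) = ρ ⟨γ, h.1⟩ :=
    fun γ h => (hΨ₀ γ h).1
  have hΨt : ∀ (γ : Ω ≃ₐ[ZMod p] Ω) (h : γ ∈ H ⊓ geo p Ω), t (Ψ₀ γ) * y = γ y :=
    fun γ h => (hΨ₀ γ h).2
  let Ψ : (H ⊓ geo p Ω : Subgroup (Ω ≃ₐ[ZMod p] Ω)) →* P' :=
    { toFun := fun γ => Ψ₀ γ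
      map_one' := by
        apply huniq 1 (one_mem _) (one_mem _)
        · exact hΨf 1 (one_mem _)
        · rw [map_one]; exact (map_one ρ).symm
        · rw [ht1, one_mul]
          exact hΨt 1 (one_mem _)
      map_mul' := by
        intro γ γ'
        have hm := mul_mem γ.2 γ'.2
        apply huniq (γ * γ' : Ω ≃ₐ[ZMod p] Ω) hm.1 hm.2
        · exact hΨf _ hm
        · rw [map_mul, hΨf _ γ.2, hΨf _ γ'.2, ← map_mul]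
          rfl
        · have e1 := hΨt _ hm
          change t (Ψ₀ (γ * γ')) * y = _
          rw [e1, h1 γ γ.2.1 γ.2.2 _ _ (hΨf _ γ.2) ⟨γ', γ'.2.1, γ'.2.2, hΨf _ γ'.2⟩]
          have e2 := hΨt _ γ.2
          have e3 := hΨt _ γ'.2
          change (γ : Ω ≃ₐ[ZMod p] Ω) ((γ' : Ω ≃ₐ[ZMod p] Ω) y) = _
          rw [← e3, map_mul, ← e2]
          ring }
  have hΨ : ∀ (γ : Ω ≃ₐ[ZMod p] Ω) (h : γ ∈ H ⊓ geo p Ω), Ψ ⟨γ, h⟩ = Ψ₀ γ := fun γ h => rfl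
  have hfinΨ : FinLevel Ψ := by
    obtain ⟨S, hS⟩ := hρfl
    refine ⟨insert y S, ?_⟩
    rintro ⟨γ, hγ⟩ hγS
    have e1 : ρ ⟨γ, hγ.1⟩ = 1 := hS ⟨γ, hγ.1⟩ fun s hs => hγS s (Finset.mem_insert_of_mem hs)
    have e2 : γ y = y := hγS y (Finset.mem_insert_self _ _)
    rw [hΨ]
    apply huniq γ hγ.1 hγ.2
    · exact hΨf _ hγ
    · rw [map_one, e1]
    · rw [hΨt _ hγ, ht1, one_mul, e2]
  have hconj : ∀ (u : Ω ≃ₐ[ZMod p] Ω) (hu : u ∈ H ⊓ geo p Ω)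
      (hu' : φ * u * φ⁻¹ ∈ H ⊓ geo p Ω), Ψ ⟨φ * u * φ⁻¹, hu'⟩ = e * Ψ ⟨u, hu⟩ * e⁻¹ := by
    intro u hu hu'
    rw [hΨ, hΨ]
    apply huniq _ hu'.1 hu'.2
    · exact hΨf _ hu'
    · rw [map_mul, map_mul, map_inv, hΨf _ hu, he, ← map_inv, ← map_mul, ← map_mul]
      rfl
    · rw [hΨt _ hu']
      have e1 := h4' u hu.1 hu.2 (Ψ₀ u) (hΨf _ hu)
      have e2 : (φ * u * φ⁻¹) w' ≠ 0 := by
        rw [Ne, map_eq_zero_iff _ (φ * u * φ⁻¹).injective]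
        exact hw'0
      -- `(φ u φ⁻¹) (φ y) = φ (u y)`
      have e3 : (φ * u * φ⁻¹) (φ y) = φ (t (Ψ₀ u)) * φ y := by
        have e4 : (φ⁻¹ : Ω ≃ₐ[ZMod p] Ω) (φ y) = y := φ.symm_apply_apply y
        change φ (u ((φ⁻¹ : Ω ≃ₐ[ZMod p] Ω) (φ y))) = _
        rw [e4, ← hΨt _ hu, map_mul]
      rw [hφy, map_mul] at e3
      have e5 : (φ * u * φ⁻¹) w' * (φ * u * φ⁻¹) y =
          (φ * u * φ⁻¹) w' * (t (e * Ψ₀ u * e⁻¹) * y) := by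
        rw [e3]
        calc φ (t (Ψ₀ u)) * (w' * y) = (φ (t (Ψ₀ u)) * w') * y := by ring
          _ = _ := by rw [e1]; ring
      exact mul_left_cancel₀ e2 e5
  obtain ⟨ρ', hρfin, hρu, hρφ⟩ := hBExt p Ω x hst H hHle φ a ha hfr hDG P' Ψ hfinΨ e hconj
  have hρΨ : ∀ (u : Ω ≃ₐ[ZMod p] Ω) (hu : u ∈ H) (_ : u ∈ geo p Ω), ρ' ⟨u, hu⟩ = Ψ₀ u :=
    fun u hu hu' => hρu u ⟨hu, hu'⟩
  have hcomp : ∀ γ : H, f (ρ' γ) = ρ γ := by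
    rintro ⟨γ, hγ⟩
    obtain ⟨S, hS⟩ := hρfl
    obtain ⟨S', hS'⟩ := hρfin
    obtain ⟨u, hu, hu', i, hi⟩ := hDG.2 γ hγ (S ∪ S')
    have hφi : φ ^ i ∈ H := pow_mem hφ i
    have hfix : ∀ s ∈ S ∪ S', (γ⁻¹ * (u * φ ^ i)) s = s := by
      intro s hs
      change γ⁻¹ (u ((φ ^ i) s)) = s
      rw [← hi s hs]
      exact γ.symm_apply_apply s
    have hmem : γ⁻¹ * (u * φ ^ i) ∈ H := mul_mem (inv_mem hγ) (mul_mem hu hφi)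
    have e1 : ρ ⟨_, hmem⟩ = 1 := hS ⟨_, hmem⟩ fun s hs => hfix s (Finset.mem_union_left _ hs)
    have e2 : ρ' ⟨_, hmem⟩ = 1 := hS' ⟨_, hmem⟩ fun s hs => hfix s (Finset.mem_union_right _ hs)
    have e3 : (⟨_, hmem⟩ : H) = (⟨γ, hγ⟩ : H)⁻¹ * (⟨u, hu⟩ * (⟨φ, hφ⟩ : H) ^ i) := rfl
    rw [e3, map_mul, map_inv, inv_mul_eq_one, map_mul, map_pow] at e1 e2
    rw [e1, e2, map_mul, map_pow, hρφ hφ, he, hρΨ u hu hu', hΨf _ ⟨hu, hu'⟩]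
  exact ⟨ρ', hcomp, hρfin⟩

end MP7K
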