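import Pool.Agent.Lib.MP_7f581e_K.Spec3

/-!
# C33, Part III, LocW: after the base change by a suitable word the norm of `d` is locally divisible
-/

set_option autoImplicit false

namespace MP7K

open MP7Z Finset

namespace LLocWM

theorem pord_prod {𝕜 E : Type} [Field 𝕜] [IsAlgClosed 𝕜] [Field E] [Algebra 𝕜 E]
    (v : Place 𝕜 E) (s : Finset ℕ) (f : ℕ → E) (hf : ∀ i ∈ s, f i ≠ 0) :
    v.pord (∏ i ∈ s, f i) = ∑ i ∈ s, v.pord (f i) := by
  classical
  induction s using Finset.induction_on with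
  | empty => rw [Finset.prod_empty, Finset.sum_empty, v.pord_one]
  | insert a s ha ih =>
    have h1 : ∀ i ∈ s, f i ≠ 0 := fun i hi => hf i (Finset.mem_insert_of_mem hi)
    rw [Finset.prod_insert ha, Finset.sum_insert ha,
      v.pord_mul (hf a (Finset.mem_insert_self _ _)) (Finset.prod_ne_zero_iff.2 h1), ih h1]

theorem pow_fix {E : Type} [Field E] (φ : E ≃+* E) {x : E} (h : φ x = x) (n : ℕ) :
    (φ ^ n) x = x := by
  induction n with
  | zero => simp
  | succ n ih => rw [pow_succ', RingAut.mul_apply, ih, h]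

theorem pow_const {𝕜 E : Type} [Field 𝕜] [Field E] [Algebra 𝕜 E] (φ : E ≃+* E) (q : ℕ)
    (h : ∀ c : 𝕜, φ (algebraMap 𝕜 E c) = algebraMap 𝕜 E (c ^ q)) (n : ℕ) (c : 𝕜) :
    (φ ^ n) (algebraMap 𝕜 E c) = algebraMap 𝕜 E (c ^ (q ^ n)) := by
  induction n with
  | zero => simp
  | succ n ih => rw [pow_succ', RingAut.mul_apply, ih, h, ← pow_mul, pow_succ]

theorem pow_alg {K K' : Type} [Field K] [Field K'] [Algebra K K'] (φ : K ≃+* K) (φ' : K' ≃+* K')
    (h : ∀ f : K, φ' (algebraMap K K' f) = algebraMap K K' (φ f)) (n : ℕ) (f : K) :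
    (φ' ^ n) (algebraMap K K' f) = algebraMap K K' ((φ ^ n) f) := by
  induction n with
  | zero => simp
  | succ n ih => rw [pow_succ', RingAut.mul_apply, ih, h, pow_succ', RingAut.mul_apply]

theorem iterate {𝕜 E : Type} [Field 𝕜] [IsAlgClosed 𝕜] [Field E] [Algebra 𝕜 E] (φ : E ≃+* E)
    (n : ℕ) (w : Place 𝕜 E) : (fun w : Place 𝕜 E => w.comap φ)^[n] w = w.comap (φ ^ n) := by
  induction n generalizing w with
  | zero => simp
  | succ n ih => rw [Function.iterate_succ_apply', ih, pow_succ, Place.comap_mul]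

/-- words commute with homomorphisms of fields -/
theorem ev_map {p : ℕ} [Fact p.Prime] {E E' : Type} [Field E] [Algebra (ZMod p) E] [Field E']
    [Algebra (ZMod p) E'] (g : E →+* E') (w : List (Atom p)) (y : E) :
    g (ev w y) = ev w (g y) := by
  have hg : ∀ c : ZMod p, g (algebraMap (ZMod p) E c) = algebraMap (ZMod p) E' c := by
    intro c
    have h : g.comp (algebraMap (ZMod p) E) = algebraMap (ZMod p) E' := Subsingleton.elim _ _
    exact RingHom.congr_fun h c
  induction w generalizing y with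
  | nil => rfl
  | cons a w ih =>
    rw [ev_cons, ev_cons, ← ih]
    cases a with
    | tr c =>
      change g (ev w y + algebraMap (ZMod p) E c) = g (ev w y) + algebraMap (ZMod p) E' c
      rw [map_add, hg]
    | inv =>
      change g (ev w y)⁻¹ = (g (ev w y))⁻¹
      rw [map_inv₀]
    | pow n =>
      change g (ev w y ^ n) = g (ev w y) ^ n
      rw [map_pow]
    | add l =>
      change g (lin p l (ev w y)) = lin p l (g (ev w y))
      rw [Lin.lin_eq_sum, Lin.lin_eq_sum, map_sum]
      refine Finset.sum_congr rfl fun i _ => ?_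
      rw [map_mul, map_pow, hg]

theorem sum_period (b : ℕ → ℤ) (m : ℕ) (h : ∀ i, b (i + m) = b i) (s : ℕ) :
    ∑ i ∈ range (m * s), b i = s * ∑ i ∈ range m, b i := by
  have h1 : ∀ s i, b (m * s + i) = b i := by
    intro s
    induction s with
    | zero => intro i; rw [mul_zero, zero_add]
    | succ s ih =>
      intro i
      rw [mul_add, mul_one, add_assoc, add_comm m i, ← add_assoc, h, ih]
  induction s with
  | zero => simp
  | succ s ih =>
    rw [mul_add, mul_one, Finset.sum_range_add, ih]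
    simp only [h1]
    push_cast
    ring

section

variable {𝕜 E : Type} [Field 𝕜] [IsAlgClosed 𝕜] [Field E] [Algebra 𝕜 E] [IsCurveField 𝕜 E]

theorem lordP_pos {x : E} (hx : Transcendental 𝕜 x) (v : Place 𝕜 E) : 0 < lordP v x := by
  have hx0 : x ≠ 0 := by
    rintro rfl
    exact hx isAlgebraic_zero
  unfold lordP
  split_ifs with h
  · have h1 := v.ev_spec h
    have h2 : x - algebraMap 𝕜 E (v.ev x) ≠ 0 := by
      intro h3
      apply hx
      rw [sub_eq_zero.1 h3]
      exact isAlgebraic_algebraMap _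
    rw [v.ord_eq_pord h2] at h1
    exact_mod_cast h1
  · rw [not_le, v.ord_eq_pord hx0] at h
    have h1 : v.pord x < 0 := by exact_mod_cast h
    omega

variable {K' : Type} [Field K'] [Algebra 𝕜 K'] [IsCurveField 𝕜 K'] [Algebra E K']
  [IsScalarTower 𝕜 E K'] [Module.Finite E K']

theorem ev_alg (u : Place 𝕜 K') {x : E} (h : 0 ≤ (u.res E).ord x) :
    u.ev (algebraMap E K' x) = (u.res E).ev x := by
  apply u.ev_unique
  rw [IsScalarTower.algebraMap_apply 𝕜 E K', ← map_sub, u.ord_algebraMap_eq (E := E)]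
  exact nsmul_pos ((u.res E).ev_spec h) (u.ram_pos).ne'

theorem resP_alg (u : Place 𝕜 K') (x : E) :
    resP u (algebraMap E K' x) = resP (u.res E) x := by
  unfold resP
  by_cases h : 0 ≤ (u.res E).ord x
  · rw [if_pos h, if_pos ((u.res_nonneg (E := E) x).1 h), ev_alg u h]
  · rw [if_neg h, if_neg fun h' => h ((u.res_nonneg (E := E) x).2 h')]

theorem lordP_alg (u : Place 𝕜 K') (x : E) :
    lordP u (algebraMap E K' x) = (u.ram E : ℤ) * lordP (u.res E) x := by
  unfold lordP
  by_cases h : 0 ≤ (u.res E).ord x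
  · rw [if_pos h, if_pos ((u.res_nonneg (E := E) x).1 h), ev_alg u h,
      IsScalarTower.algebraMap_apply 𝕜 E K', ← map_sub, u.pord_algebraMap_eq (E := E)]
  · rw [if_neg h, if_neg fun h' => h ((u.res_nonneg (E := E) x).2 h'),
      u.pord_algebraMap_eq (E := E)]
    ring

end

end LLocWM

open LLocWM in
theorem lLocW (hVal : LStmtVal) (hC : LStmtNumC) (hB : MP7Z.CStmtNumB) : LStmtLocW := by
  classical
  intro p _ 𝕜 K _ _ _ _ _ _ ℓ a φ x d m hℓ ha htr hd hm hdm
  have hdi : ∀ i : ℕ, (φ ^ i) d ≠ 0 := fun i =>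
    (map_ne_zero_iff (φ ^ i) (φ ^ i).injective).2 hd
  set T : Set (Place 𝕜 K) := {u | ∃ i ∈ range m, u.ord ((φ ^ i) d) ≠ 0} with hTdef
  have hT : T.Finite := by
    have h1 : T = ⋃ i ∈ range m, {u : Place 𝕜 K | u.ord ((φ ^ i) d) ≠ 0} := by
      ext u
      simp [hTdef]
    rw [h1]
    exact Set.Finite.biUnion (Finset.finite_toSet _) fun i _ => finite_ord_ne (hdi i)
  obtain ⟨M0, hM0⟩ := hC a m ℓ ha hm hℓ
  set N : ℕ := hT.toFinset.sup (fun u => (lordP u x).toNat) with hN
  have hNu : ∀ u ∈ T, (lordP u x).toNat ≤ N := fun u hu =>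
    Finset.le_sup (f := fun u : Place 𝕜 K => (lordP u x).toNat) (hT.mem_toFinset.2 hu)
  refine ⟨(fun u => resP u x) '' T, M0 + N + 1, hT.image _, ?_⟩
  intro w hw hwB K' _ _ _ _ _ _ _ s φ' hs hφc hφ' y hy hφy u
  by_cases hr0 : orbLen φ' u = 0
  · rw [hr0]; simp
  set r := orbLen φ' u with hr
  have hrpos : 0 < r := Nat.pos_of_ne_zero hr0
  have hur : u.comap (φ' ^ r) = u := by
    rw [← iterate]
    exact Function.isPeriodicPt_minimalPeriod (fun w : Place 𝕜 K' => w.comap φ') u
  set R := s * r with hR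
  have hRpos : 0 < R := Nat.mul_pos hs hrpos
  have hinj : ∀ z : K, z ≠ 0 → algebraMap K K' z ≠ 0 := fun z hz => (map_ne_zero _).2 hz
  set b : ℕ → ℤ := fun i => u.pord (algebraMap K K' ((φ ^ i) d)) with hb
  have hbram : ∀ i, b i = (u.ram K : ℤ) * (u.res K).pord ((φ ^ i) d) := fun i =>
    u.pord_algebraMap_eq (E := K) _
  have hbm : ∀ i, b (i + m) = b i := by
    intro i
    simp only [hb]
    rw [pow_add, RingAut.mul_apply, hdm]
  have hbR : ∀ i, b (i + R) = b i := by
    intro i
    have h1 : (φ' ^ r) (algebraMap K K' ((φ ^ i) d)) = algebraMap K K' ((φ ^ (i + R)) d) := by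
      rw [pow_alg (φ ^ s) φ' hφ' r, ← pow_mul, ← hR, add_comm, pow_add, RingAut.mul_apply]
    simp only [hb]
    rw [← h1, ← Place.comap_pord, hur]
  have hprod : u.pord (algebraMap K K' (∏ i ∈ range (m * s), (φ ^ i) d))
      = s * ∑ i ∈ range m, b i := by
    rw [map_prod, pord_prod u _ _ fun i _ => hinj _ (hdi i), ← sum_period b m hbm s]
  have hkey : (r : ℤ) * (s * ∑ i ∈ range m, b i) =
      (m : ℤ) * (((R / Nat.gcd m R : ℕ) : ℤ) * ∑ i ∈ range (Nat.gcd m R), b i) := by
    rw [← hB b m R hm hRpos hbm hbR, hR]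
    push_cast
    ring
  rw [hprod, hkey]
  push_cast
  refine mul_dvd_mul_left _ ?_
  set v := u.res K with hv
  by_cases hvT : v ∈ T
  · -- the places in `T`
    have hytr : Transcendental 𝕜 y := by
      apply transcendental_of
      intro c hc
      rw [hc, ← ev_map (algebraMap 𝕜 K') w c, IsScalarTower.algebraMap_apply 𝕜 K K'] at hy
      have h1 : algebraMap 𝕜 K (ev w c) = x := (algebraMap K K').injective hy
      exact htr (h1 ▸ isAlgebraic_algebraMap _)
    obtain ⟨-, h2, h3⟩ := hVal p 𝕜 K' u w hw y hytr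
    rw [hy] at h2 h3
    rw [resP_alg] at h2
    rw [lordP_alg] at h3
    have hmem : evP w (resP u y) ∈ (fun u => resP u x) '' T := ⟨v, hvT, h2⟩
    rcases hwB _ hmem with h | h
    · -- the ramification index is divisible by `ℓ`
      have hdvd : ((ℓ ^ (M0 + N + 1) : ℕ) : ℤ) ∣ (u.ram K : ℤ) * lordP v x := by
        rw [h3]
        exact Dvd.dvd.mul_right (by exact_mod_cast h) _
      have hram : (ℓ : ℤ) ∣ (u.ram K : ℤ) := by
        by_contra hcon
        have h4 : IsCoprime ((ℓ ^ (M0 + N + 1) : ℕ) : ℤ) (u.ram K : ℤ) := by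
          rw [Nat.isCoprime_iff_coprime]
          apply Nat.Coprime.pow_left
          rw [Nat.Prime.coprime_iff_not_dvd hℓ]
          intro h
          exact hcon (by exact_mod_cast h)
        have h5 : ((ℓ ^ (M0 + N + 1) : ℕ) : ℤ) ∣ lordP v x := h4.dvd_of_dvd_mul_left hdvd
        have h6 := Int.le_of_dvd (lordP_pos htr v) h5
        have h7 : M0 + N + 1 < ℓ ^ (M0 + N + 1) := Nat.lt_pow_self hℓ.one_lt
        have h8 := hNu v hvT
        have h9 := lordP_pos htr v
        omega
      refine Dvd.dvd.mul_left (Finset.dvd_sum fun i _ => ?_) _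
      rw [hbram]
      exact Dvd.dvd.mul_right hram _
    · -- the residue degree
      refine Dvd.dvd.mul_right ?_ _
      by_cases hyn : 0 ≤ u.ord y
      · have hy0 : resP u y = some (u.ev y) := by
          unfold resP
          rw [if_pos hyn]
        rw [hy0] at h
        change ℓ ^ (M0 + N + 1) ∣ dg p (u.ev y) at h
        have h4 := u.ev_comap (φ' ^ r) (pow_const φ' _ hφc r) (f := y) (by
          rw [hur]
          exact hyn)
        rw [pow_fix φ' hφy r, hur, ← pow_mul] at h4
        have h5 : dg p (u.ev y) ∣ a * s * r := (Lin.dg_dvd_iff _ _).2 h4.symm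
        have h6 : ℓ ^ (M0 + N + 1) ∣ a * R := by
          rw [hR, ← mul_assoc]
          exact h.trans h5
        exact_mod_cast hM0 (M0 + N + 1) (by omega) R hRpos h6
      · exfalso
        have hy0 : resP u y = none := by
          unfold resP
          rw [if_neg hyn]
        rw [hy0] at h
        change ℓ ^ (M0 + N + 1) ∣ 1 at h
        have h7 : M0 + N + 1 < ℓ ^ (M0 + N + 1) := Nat.lt_pow_self hℓ.one_lt
        have h8 := Nat.le_of_dvd one_pos h
        omega
  · -- the other places
    have hb0 : ∀ i ∈ range (Nat.gcd m R), b i = 0 := by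
      intro i hi
      have h1 : i ∈ range m := by
        rw [mem_range] at hi ⊢
        exact lt_of_lt_of_le hi (Nat.gcd_le_left _ hm)
      have h2 : v.ord ((φ ^ i) d) = 0 := by
        by_contra h3
        exact hvT ⟨i, h1, h3⟩
      have h3 : v.pord ((φ ^ i) d) = 0 := by
        rw [v.pord_eq_iff (hdi i), h2]
        rfl
      rw [hbram, h3, mul_zero]
    rw [Finset.sum_eq_zero hb0, mul_zero]
    exact dvd_zero _

end MP7K
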