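import Pool.Agent.Lib.MP_7f581e_K.Spec3
import Pool.Agent.Lib.MP_7f581e_K.L.LocW
import Pool.Agent.Lib.MP_7f581e_Z.BR.LevAux
import Pool.Agent.Lib.MP_7f581e_Z.CS.CS

/-!
# C33, Part III, CSW: the central step
-/

set_option autoImplicit false

namespace MP7K

open MP7Z Finset

namespace LCSWM

section

variable {p : ℕ} [Fact p.Prime] {Ω : Type} [Field Ω] [Algebra (ZMod p) Ω]

/-- The level of the geometric part of an open subgroup. -/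
theorem lvl_geo (hGal : GalStmt) {x : Ω} (hst : IsStage p x) {H : Subgroup (Ω ≃ₐ[ZMod p] Ω)}
    (hH : H ≤ Gx p x) (hO : Opn p x H) :
    ∃ K : IntermediateField (Cst p Ω) Ω, IsLevel p x K ∧
      (∀ f : Ω, f ∈ K ↔ ∀ γ ∈ H, γ ∈ geo p Ω → γ f = f) ∧
      ∀ τ ∈ H, ∀ f, f ∈ K ↔ τ f ∈ K := by
  obtain ⟨S, hS⟩ := hO
  obtain ⟨K, h1, h2, h3, h4⟩ := hGal p Ω x hst (H ⊓ geo p Ω) S (by
    rintro γ ⟨hγ, hγ'⟩ c hc
    rcases Set.mem_insert_iff.1 hc with rfl | hc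
    · exact mem_Gx.1 (hH hγ)
    · exact hγ' c hc) (by
    intro γ hγ
    refine ⟨hS γ ?_ ?_, ?_⟩
    · exact mem_Gx.2 (hγ x (Or.inl (Set.mem_insert _ _)))
    · intro s hs
      exact hγ s (Or.inr hs)
    · intro c hc
      exact hγ c (Or.inl (Set.mem_insert_of_mem _ hc)))
  refine ⟨K, h1, fun f => ?_, fun τ hτ f => h4 τ ?_ f⟩
  · rw [h3]
    exact ⟨fun h γ h5 h6 => h γ ⟨h5, h6⟩, fun h γ h5 => h γ h5.1 h5.2⟩
  · intro h
    constructor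
    · rintro ⟨h5, h6⟩
      exact ⟨H.mul_mem (H.mul_mem hτ h5) (H.inv_mem hτ), CS_.geo_conj h6⟩
    · rintro ⟨h5, h6⟩
      have h7 : h = τ⁻¹ * (τ * h * τ⁻¹) * τ := by group
      rw [h7]
      exact ⟨H.mul_mem (H.mul_mem (H.inv_mem hτ) h5) hτ, CS_.geo_conj' h6⟩

/-- The data can be restricted to a smaller group. -/
theorem cdat_rst {ℓ : ℕ} {H : Subgroup (Ω ≃ₐ[ZMod p] Ω)} {P P' : Type} [Group P] [Group P']
    {ρ : H →* P} {f : P' →* P} {φ : Ω ≃ₐ[ZMod p] Ω} {e : P'} {t : P' → Ω} {z w d : Ω}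
    (h : CDat p ℓ ρ f φ e t z w d) (y : Ω) : CDat p ℓ (rst ρ y) f φ e t z w d where
  z0 := h.z0
  w0 := h.w0
  d0 := h.d0
  t0 := fun γ hγ hg g hfg => h.t0 γ hγ.1 hg g hfg
  tm := by
    intro γ hγ hg g g' hfg hfg'
    obtain ⟨γ', hγ', hg', h1⟩ := hfg'
    exact h.tm γ hγ.1 hg g g' hfg ⟨γ', hγ'.1, hg', h1⟩
  tk := h.tk
  ts := h.ts
  zt := fun γ hγ hg g hfg => h.zt γ hγ.1 hg g hfg
  wt := fun γ hγ hg g hfg => h.wt γ hγ.1 hg g hfg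
  df := fun γ hγ hg => h.df γ hγ.1 hg
  zd := h.zd

/-- The element `d` can be removed if it is of the form `e₀ ^ ℓ * φ c / c`. -/
theorem cdat_mod {ℓ : ℕ} {H : Subgroup (Ω ≃ₐ[ZMod p] Ω)} {P P' : Type} [Group P] [Group P']
    {ρ : H →* P} {f : P' →* P} {φ : Ω ≃ₐ[ZMod p] Ω} {e : P'} {t : P' → Ω} {z w d : Ω}
    (h : CDat p ℓ ρ f φ e t z w d) (hφ : φ ∈ H) {e₀ c : Ω} (he0 : e₀ ≠ 0) (hc0 : c ≠ 0)
    (he : ∀ γ ∈ H, γ ∈ geo p Ω → γ e₀ = e₀) (hc : ∀ γ ∈ H, γ ∈ geo p Ω → γ c = c)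
    (hdc : d * c = e₀ ^ ℓ * φ c) : CDat p ℓ ρ f φ e t (z / c) (e₀ * w) 1 where
  z0 := div_ne_zero h.z0 hc0
  w0 := mul_ne_zero he0 h.w0
  d0 := one_ne_zero
  t0 := h.t0
  tm := h.tm
  tk := h.tk
  ts := h.ts
  zt := by
    intro γ hγ hg g hfg
    rw [map_div₀, h.zt γ hγ hg g hfg, hc γ hγ hg, mul_div_assoc]
  wt := by
    intro γ hγ hg g hfg
    have h1 := h.wt γ hγ hg g hfg
    have h2 : (φ * γ * φ⁻¹) e₀ = e₀ :=
      he _ (mul_mem (mul_mem hφ hγ) (inv_mem hφ)) (CS_.geo_conj hg)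
    rw [map_mul, h2]
    calc φ (t g) * (e₀ * w) = e₀ * (φ (t g) * w) := by ring
      _ = _ := by rw [h1]; ring
  df := fun γ _ _ => map_one γ
  zd := by
    have hφc : φ c ≠ 0 := (map_ne_zero_iff φ φ.injective).2 hc0
    rw [map_div₀, h.zd, one_mul, mul_pow, div_eq_iff hφc]
    have h1 : d = e₀ ^ ℓ * φ c / c := by rw [eq_div_iff hc0, hdc]
    rw [h1]
    field_simp

end

theorem prod_blocks {E : Type} [CommMonoid E] (F : ℕ → E) (s m : ℕ) :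
    ∏ i ∈ range m, ∏ j ∈ range s, F (i * s + j) = ∏ k ∈ range (m * s), F k := by
  induction m with
  | zero => simp
  | succ m ih => rw [Finset.prod_range_succ, ih, Nat.succ_mul, Finset.prod_range_add]

end LCSWM

open LCSWM LevAux in
theorem lCSW (hCst : CstStmt) (hLvl : LvlStmt) (hFrbK : FrbKStmt) (hGal : GalStmt)
    (hDen : CStmtDen) (hA : LemmaA) (hDat : LStmtDatX) (hCmp : LStmtCmp) (hDvd : LStmtDvd)
    (hLoc : LStmtLocW) (hNEW : LStmtNEW) (hBack : LStmtBackF) : LStmtCSW := by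
  classical
  intro p _ ℓ hℓ hℓp Ω _ _ x hst H hHx hO hmu P _ _ ρ hP hfin P' _ _ f hf hcen hcard
  have hac : IsAlgClosed (Cst p Ω) := hCst p Ω x hst
  obtain ⟨φ, a, ha, hφc, hDG⟩ := hDen p Ω x hst H hHx hO
  obtain ⟨e, he⟩ := hf (ρ ⟨φ, hDG.1⟩)
  obtain ⟨t, z, w, d, hD⟩ := hDat p ℓ hℓ hℓp Ω x hst H hHx hO hmu P ρ hP hfin P' f hf hcen hcard
    φ hDG.1 e he
  obtain ⟨K, hK, hK1, hK2⟩ := lvl_geo hGal hst hHx hO
  have hdK : d ∈ K := (hK1 d).2 hD.df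
  obtain ⟨hKc, hKt, hKs⟩ := (hLvl p Ω x hst).1 K hK
  obtain ⟨φK, hφK, hφKF⟩ := hFrbK p Ω x hst K hK a ha φ (hHx hDG.1) hφc
    (fun g hg => (hK2 φ hDG.1 g).1 hg) (fun g hg => (hK2 φ⁻¹ (inv_mem hDG.1) g).1 hg)
  obtain ⟨m, hm, hmd⟩ := hφKF.fin ⟨d, hdK⟩
  have hφKi : ∀ (i : ℕ) (g : K), (((φK ^ i) g : K) : Ω) = (φ ^ i) (g : Ω) := by
    intro i
    induction i with
    | zero => intro g; rfl
    | succ i ih =>
      intro g
      rw [pow_succ', RingAut.mul_apply, hφK, ih, pow_succ']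
      rfl
  have hd0 : (⟨d, hdK⟩ : K) ≠ 0 := fun h => hD.d0 (congrArg Subtype.val h)
  obtain ⟨B, M, hBf, hB⟩ := hLoc p (Cst p Ω) K ℓ a φK ⟨x, hK.mem⟩ ⟨d, hdK⟩ m hℓ ha hKt hd0 hm hmd
  have hai : Algebra.IsAlgebraic (ZMod p) (Cst p Ω) := inferInstance
  obtain ⟨w₀, hw₀, hw₁⟩ := hA p (Cst p Ω) ℓ hℓ hℓp B hBf M
  refine ⟨w₀, hw₀, ?_⟩
  intro y hy hyst hle
  have hO' : Opn p y (H ⊓ Gx p y) := by
    obtain ⟨S, hS⟩ := hO
    exact ⟨S, fun γ hγ h => ⟨hS γ (hle hγ) h, hγ⟩⟩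
  obtain ⟨φ', a', ha', hφ'c, hDG'⟩ := hDen p Ω y hyst (H ⊓ Gx p y) inf_le_right hO'
  obtain ⟨s, u, hs, has, huH, hug, hφ'⟩ := hDvd p Ω H φ φ' a a' ha ha' hφc hφ'c hDG hDG'.1.1
  obtain ⟨gu, hgu⟩ := hf (ρ ⟨u, huH⟩)
  have hD' := hCmp p ℓ Ω H P P' ρ f φ hDG.1 e t z w d he hD s u huH hug gu hgu
  rw [← hφ'] at hD'
  obtain ⟨e', he'⟩ : ∃ e', e' = gu * e ^ s := ⟨_, rfl⟩
  obtain ⟨w', hw'⟩ : ∃ w', w' = t gu * u (∏ j ∈ range s, (φ ^ j) w) := ⟨_, rfl⟩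
  obtain ⟨d', hd'⟩ : ∃ d', d' = ∏ j ∈ range s, (φ ^ j) d := ⟨_, rfl⟩
  rw [← he', ← hw', ← hd'] at hD'
  have hfe' : f e' = rst ρ y ⟨φ', hDG'.1⟩ := by
    rw [rst_apply, he', map_mul, map_pow, he, hgu, ← map_pow, ← map_mul]
    congr 1
    exact Subtype.ext hφ'.symm
  -- the level at `y`
  obtain ⟨K', hK', hK'1, hK'2⟩ := lvl_geo hGal hyst (H := H ⊓ Gx p y) inf_le_right hO'
  have hKK : K ≤ K' := by
    intro g hg
    rw [hK'1]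
    intro γ hγ hγ'
    exact (hK1 g).1 hg γ hγ.1 hγ'
  have hK'x : IsLevel p x K' := ⟨hKK hK.mem, hK'.fg⟩
  have hK'c : IsCurveField (Cst p Ω) K' := ((hLvl p Ω y hyst).1 K' hK').1
  obtain ⟨φK', hφK', hφKF'⟩ := hFrbK p Ω y hyst K' hK' a' ha' φ' hDG'.1.2 hφ'c
    (fun g hg => (hK'2 φ' hDG'.1 g).1 hg) (fun g hg => (hK'2 φ'⁻¹ (inv_mem hDG'.1) g).1 hg)
  let aKK := incAlg hKK
  have tKK := tower_inc hKK
  have fKK := finite_of_level hst hK hK'x hKK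
  have hext : ∀ g : K, φK' (algebraMap K K' g) = algebraMap K K' ((φK ^ s) g) := by
    intro g
    apply Subtype.ext
    rw [hφK', incAlg_apply, incAlg_apply, hφKi, hφ']
    change u ((φ ^ s) (g : Ω)) = _
    have h1 : (φ ^ s) (g : Ω) ∈ K := by
      rw [← hφKi]
      exact ((φK ^ s) g).2
    exact (hK1 _).1 h1 u huH hug
  have hyK : y ∈ K' := hK'.mem
  have hev : ev w₀ (⟨y, hyK⟩ : K') = algebraMap K K' ⟨x, hK.mem⟩ := by
    apply Subtype.ext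
    rw [incAlg_apply]
    exact (LLocWM.ev_map (p := p) (algebraMap K' Ω) w₀ ⟨y, hyK⟩).trans hy
  have hfixy : φK' ⟨y, hyK⟩ = ⟨y, hyK⟩ := Subtype.ext ((hφK' _).trans (mem_Gx.1 hDG'.1.2))
  have hloc := hB w₀ hw₀ hw₁ K' s φK' hs (by
    intro c
    rw [← has]
    exact hφKF'.frob c) hext ⟨y, hyK⟩ hev hfixy
  -- the element `d'` in `K'`
  obtain ⟨D, hDdef⟩ : ∃ D : K, D = ∏ j ∈ range s, (φK ^ j) ⟨d, hdK⟩ := ⟨_, rfl⟩
  have hDd' : (D : Ω) = d' := by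
    rw [hDdef, hd']
    have h1 := map_prod (algebraMap K Ω) (fun j => (φK ^ j) (⟨d, hdK⟩ : K)) (range s)
    refine h1.trans (Finset.prod_congr rfl fun j _ => ?_)
    exact hφKi j ⟨d, hdK⟩
  have hpow : ∀ (i : ℕ) (g : K), (φK' ^ i) (algebraMap K K' g) =
      algebraMap K K' ((φK ^ (i * s)) g) := by
    intro i
    induction i with
    | zero => intro g; simp
    | succ i ih =>
      intro g
      rw [pow_succ', RingAut.mul_apply, ih, hext, ← RingAut.mul_apply, ← pow_add, Nat.succ_mul,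
        add_comm s]
  have hms : (φK ^ (m * s)) (⟨d, hdK⟩ : K) = ⟨d, hdK⟩ := by
    rw [pow_mul]
    exact LLocWM.pow_fix (φK ^ m) hmd s
  have hmD : (φK' ^ m) (algebraMap K K' D) = algebraMap K K' D := by
    rw [hpow, hDdef, map_prod]
    congr 1
    refine Finset.prod_congr rfl fun j _ => ?_
    rw [← RingAut.mul_apply, ← pow_add, add_comm, pow_add, RingAut.mul_apply, hms]
  have hprod : ∏ i ∈ range m, (φK' ^ i) (algebraMap K K' D) =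
      algebraMap K K' (∏ k ∈ range (m * s), (φK ^ k) ⟨d, hdK⟩) := by
    rw [← prod_blocks, map_prod]
    refine Finset.prod_congr rfl fun i _ => ?_
    rw [hpow, hDdef, map_prod]
    congr 1
    refine Finset.prod_congr rfl fun j _ => ?_
    rw [← RingAut.mul_apply, ← pow_add]
  have hD0 : algebraMap K K' D ≠ 0 := by
    intro h
    have h1 : (D : Ω) = 0 := congrArg Subtype.val h
    rw [hDd'] at h1
    exact hD'.d0 h1
  obtain ⟨e₀, c, he0, hc0, hdc⟩ := hNEW (Cst p Ω) K' ℓ (p ^ a') φK' (algebraMap K K' D) m hℓ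
    hφKF' hD0 hm hmD (by
      intro v
      rw [hprod]
      exact hloc v)
  have hdc' : d' * (c : Ω) = (e₀ : Ω) ^ ℓ * φ' (c : Ω) := by
    have h1 := congrArg (fun g : K' => (g : Ω)) hdc
    rw [← hφK', ← hDd']
    exact h1
  have hD'' := cdat_mod (cdat_rst hD' y) hDG'.1 (e₀ := (e₀ : Ω)) (c := (c : Ω))
    (fun h => he0 (Subtype.ext h)) (fun h => hc0 (Subtype.ext h))
    (fun γ hγ hg => (hK'1 _).1 e₀.2 γ hγ hg) (fun γ hγ hg => (hK'1 _).1 c.2 γ hγ hg) hdc'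
  obtain ⟨ρ', h1, h2⟩ := hBack p ℓ hℓ hℓp Ω y hyst (H ⊓ Gx p y) inf_le_right P (rst ρ y) (by
    obtain ⟨S, hS⟩ := hfin
    exact ⟨S, fun γ h => hS ⟨γ, γ.2.1⟩ h⟩) φ' a' hDG'.1 ha' hφ'c hDG' P' f hf e' hfe' t _ _ hD''
  exact ⟨ρ', h2, fun γ h => h1 ⟨γ, h⟩⟩

end MP7K
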