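import Pool.Agent.Lib.MP_7f581e_K.Spec3
import Pool.Agent.Lib.MP_7f581e_Z.EPL.Chain

/-!
# C33, Part III: lifting through any surjection of `ℓ`-groups, compatibly with (RD)
-/

set_option autoImplicit false

namespace MP7K

open MP7Z

namespace LChainWM

theorem aux (h1 : LStmtCSW) (h2 : BaseW) (p : ℕ) [Fact p.Prime] (ℓ : ℕ) (hℓ : ℓ.Prime)
    (hp : ℓ ≠ p) (Ω : Type) [Field Ω] [Algebra (ZMod p) Ω] (x : Ω) (hx : IsStage p x)
    (H : Subgroup (Ω ≃ₐ[ZMod p] Ω)) (hH : H ≤ Gx p x) (hO : Opn p x H)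
    (hζ : ∀ ζ : Ω, ζ ^ ℓ = 1 → ∀ γ ∈ H, γ ζ = ζ)
    (P : Type) [Group P] [Finite P] (ρ : H →* P) (hρ : FinLevel ρ) :
    ∀ (n : ℕ) (P' : Type) [Group P'] [Finite P'] (f : P' →* P), Nat.card P' ≤ n →
      Function.Surjective f → IsPGroup ℓ P' →
      ∃ (y : Ω) (H' : Subgroup (Ω ≃ₐ[ZMod p] Ω)), IsStage p y ∧ H' = H ⊓ Gx p y ∧
        (∃ hle : Gx p y ≤ Gx p x, ∀ (G : Type) [Group G] [Finite G] (ψ : Gx p x →* G),
          RD p x ψ → RD p y (rs hle ψ)) ∧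
        ∃ ρ' : H' →* P', FinLevel ρ' ∧
          ∀ (γ : Ω ≃ₐ[ZMod p] Ω) (h : γ ∈ H') (h₁ : γ ∈ H), f (ρ' ⟨γ, h⟩) = ρ ⟨γ, h₁⟩ := by
  intro n
  induction n with
  | zero =>
    intro P' _ _ f hn hf hP'
    have := Nat.card_pos (α := P')
    omega
  | succ n ih =>
    intro P' _ _ f hn hf hP'
    by_cases hinj : Function.Injective f
    · let e : P' ≃* P := MulEquiv.ofBijective f ⟨hinj, hf⟩
      have he : ∀ y : P, f (e.symm y) = y := fun y => e.apply_symm_apply y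
      refine ⟨x, H, hx, (inf_eq_left.mpr hH).symm, ⟨le_rfl, fun G _ _ ψ h => h⟩,
        e.symm.toMonoidHom.comp ρ, ?_, ?_⟩
      · obtain ⟨S, hS⟩ := hρ
        refine ⟨S, ?_⟩
        intro γ hγ
        show e.symm (ρ γ) = 1
        rw [hS γ hγ, map_one]
      · intro γ h h₁
        exact he _
    · have hker : f.ker ≠ ⊥ := fun h => hinj ((MonoidHom.ker_eq_bot_iff f).mp h)
      obtain ⟨z, hz, hcen, hord⟩ := MP7Z.EPL.ChainAux.exists_central ℓ hℓ P' hP' f.ker hker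
      let Z : Subgroup P' := Subgroup.zpowers z
      have hZc : ∀ a ∈ Z, ∀ b : P', a * b = b * a := by
        intro a ha b
        obtain ⟨k, rfl⟩ := Subgroup.mem_zpowers_iff.mp ha
        exact (Commute.zpow_left (show Commute z b from hcen b) k)
      have hZn : Z.Normal := by
        refine ⟨fun a ha g => ?_⟩
        rw [← hZc a ha g, mul_assoc, mul_inv_cancel, mul_one]
        exact ha
      have hZle : Z ≤ f.ker := by
        rw [Subgroup.zpowers_le]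
        exact hz
      have hZcard : Nat.card Z = ℓ := by
        rw [Nat.card_zpowers, hord]
      let f₁ : P' ⧸ Z →* P := QuotientGroup.lift Z f hZle
      have hf₁ : Function.Surjective f₁ := by
        intro y
        obtain ⟨w, hw⟩ := hf y
        exact ⟨(w : P' ⧸ Z), hw⟩
      have hcard : Nat.card (P' ⧸ Z) ≤ n := by
        have h1 := Subgroup.card_eq_card_quotient_mul_card_subgroup Z
        rw [hZcard] at h1
        have h2 := Nat.card_pos (α := P' ⧸ Z)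
        have h3 := hℓ.two_le
        nlinarith
      obtain ⟨y₁, H₁, hy₁, hH₁, ⟨hle₁, hRD₁⟩, ρ₁, hN₁, hρ₁⟩ :=
        ih (P' ⧸ Z) f₁ hcard hf₁ (hP'.to_quotient Z)
      have hk : (QuotientGroup.mk' Z).ker = Z := QuotientGroup.ker_mk' Z
      have hO₁ : Opn p y₁ H₁ := by
        obtain ⟨S, hS⟩ := hO
        refine ⟨S, fun γ hγ h => ?_⟩
        rw [hH₁]
        exact ⟨hS γ (hle₁ hγ) h, hγ⟩
      have hle' : H₁ ≤ Gx p y₁ := by
        rw [hH₁]
        exact inf_le_right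
      have hζ₁ : ∀ ζ : Ω, ζ ^ ℓ = 1 → ∀ γ ∈ H₁, γ ζ = ζ := by
        intro ζ hz γ hγ
        rw [hH₁] at hγ
        exact hζ ζ hz γ hγ.1
      obtain ⟨w, hw, hcsw⟩ := h1 p ℓ hℓ hp Ω y₁ hy₁ H₁ hle' hO₁ hζ₁ (P' ⧸ Z) ρ₁
        (hP'.to_quotient Z) hN₁ P' (QuotientGroup.mk' Z)
          (QuotientGroup.mk'_surjective Z) (by rw [hk]; exact hZc) (by rw [hk]; exact hZcard)
      obtain ⟨y, hy, hys, hle, hRD⟩ := h2 p Ω y₁ hy₁ w hw
      obtain ⟨ρ', hN', hρ'⟩ := hcsw y hy hys hle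
      refine ⟨y, H₁ ⊓ Gx p y, hys, ?_, ⟨hle.trans hle₁, ?_⟩, ρ', hN', ?_⟩
      · rw [hH₁]
        ext γ
        simp only [Subgroup.mem_inf]
        constructor
        · rintro ⟨⟨h1, _⟩, h3⟩
          exact ⟨h1, h3⟩
        · rintro ⟨h1, h3⟩
          exact ⟨⟨h1, hle h3⟩, h3⟩
      · intro G _ _ ψ hψ
        exact hRD G (rs hle₁ ψ) (hRD₁ G ψ hψ)
      · intro γ h h₁
        have h2 := hρ' γ h
        have h3 := hρ₁ γ h.1 h₁
        rw [← h3, ← h2]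
        rfl

end LChainWM

theorem lChainW (h1 : LStmtCSW) (h2 : BaseW) : LStmtChainW := by
  intro p _ ℓ hℓ hp Ω _ _ x hx H hH hO hζ P _ _ ρ _ hρ P' _ _ f hf hP'
  exact LChainWM.aux h1 h2 p ℓ hℓ hp Ω x hx H hH hO hζ P ρ hρ (Nat.card P') P' f le_rfl hf hP'

end MP7K
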