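import Pool.Agent.Lib.MP_7f581e_K.Spec3

/-!
# C33, task L/Cmp: the data for another Frobenius lift
-/

set_option autoImplicit false

namespace MP7K

open MP7Z Finset

namespace LCmpM

section

variable {p : ℕ} [Fact p.Prime] {Ω : Type} [Field Ω] [Algebra (ZMod p) Ω]

theorem cst (g : Ω ≃ₐ[ZMod p] Ω) {c : Ω} (hc : c ∈ Cst p Ω) : g c ∈ Cst p Ω := by
  rw [mem_algebraicClosure_iff] at hc ⊢
  exact IsAlgebraic.algHom g.toAlgHom hc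

theorem conj (g : Ω ≃ₐ[ZMod p] Ω) {v : Ω ≃ₐ[ZMod p] Ω} (hv : v ∈ geo p Ω) :
    g * v * g⁻¹ ∈ geo p Ω := by
  intro c hc
  change g (v (g⁻¹ c)) = c
  rw [hv _ (cst g⁻¹ hc)]
  exact g.apply_symm_apply c

theorem prod_succ (φ : Ω ≃ₐ[ZMod p] Ω) (w : Ω) (s : ℕ) :
    ∏ j ∈ range (s + 1), (φ ^ j) w = w * φ (∏ j ∈ range s, (φ ^ j) w) := by
  rw [Finset.prod_range_succ', map_prod, mul_comm]
  have h : ∀ k ∈ range s, (φ ^ (k + 1)) w = φ ((φ ^ k) w) := by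
    intro k _
    rw [pow_succ']
    rfl
  rw [Finset.prod_congr rfl h, pow_zero]
  rfl

theorem prod_ne (φ : Ω ≃ₐ[ZMod p] Ω) {w : Ω} (hw : w ≠ 0) (s : ℕ) :
    ∏ j ∈ range s, (φ ^ j) w ≠ 0 :=
  Finset.prod_ne_zero_iff.2 (fun j _ => (map_ne_zero (φ ^ j)).2 hw)

theorem map_eq {H : Subgroup (Ω ≃ₐ[ZMod p] Ω)} {P P' : Type} [Group P] [Group P'] {ρ : H →* P}
    {f : P' →* P} {φ γ : Ω ≃ₐ[ZMod p] Ω} {hφ : φ ∈ H} {hγ : γ ∈ H} {e g : P'}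
    (he : f e = ρ ⟨φ, hφ⟩) (hg : f g = ρ ⟨γ, hγ⟩) (h' : φ * γ * φ⁻¹ ∈ H) :
    f (e * g * e⁻¹) = ρ ⟨φ * γ * φ⁻¹, h'⟩ := by
  rw [map_mul, map_mul, map_inv, he, hg, ← map_mul, ← map_inv, ← map_mul]
  rfl

theorem map_pow_eq {H : Subgroup (Ω ≃ₐ[ZMod p] Ω)} {P P' : Type} [Group P] [Group P']
    {ρ : H →* P} {f : P' →* P} {φ : Ω ≃ₐ[ZMod p] Ω} {hφ : φ ∈ H} {e : P'}
    (he : f e = ρ ⟨φ, hφ⟩) (s : ℕ) (h' : φ ^ s ∈ H) : f (e ^ s) = ρ ⟨φ ^ s, h'⟩ := by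
  rw [map_pow, he, ← map_pow]
  rfl

end

end LCmpM

open LCmpM in
theorem lCmp : LStmtCmp := by
  intro p ℓ _ Ω _ _ H P P' _ _ ρ f φ hφ e t z w d he hD s u hu hug gu hgu
  have hmem : ∀ s : ℕ, φ ^ s ∈ H := fun s => pow_mem hφ s
  -- step 1
  have hA : ∀ s : ℕ, (φ ^ s) z =
      (∏ j ∈ range s, (φ ^ j) d) * (∏ j ∈ range s, (φ ^ j) w) ^ ℓ * z := by
    intro s
    induction s with
    | zero => simp
    | succ s ih =>
      have h1 : (φ ^ (s + 1)) z = φ ((φ ^ s) z) := by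
        rw [pow_succ']
        rfl
      rw [h1, ih, prod_succ, prod_succ, map_mul, map_mul, map_pow, hD.zd]
      ring
  have hB : ∀ (s : ℕ) (γ : Ω ≃ₐ[ZMod p] Ω) (hγ : γ ∈ H), γ ∈ geo p Ω →
      ∀ g : P', f g = ρ ⟨γ, hγ⟩ → (φ ^ s) (t g) * (∏ j ∈ range s, (φ ^ j) w) =
        t (e ^ s * g * (e ^ s)⁻¹) *
          (φ ^ s * γ * (φ ^ s)⁻¹) (∏ j ∈ range s, (φ ^ j) w) := by
    intro s
    induction s with
    | zero =>
      intro γ hγ _ g _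
      simp
    | succ s ih =>
      intro γ hγ hγg g hg
      set W := ∏ j ∈ range s, (φ ^ j) w with hW
      have h1 : (φ ^ (s + 1)) (t g) = φ ((φ ^ s) (t g)) := by
        rw [pow_succ']
        rfl
      have hγs : φ ^ s * γ * (φ ^ s)⁻¹ ∈ H := mul_mem (mul_mem (hmem s) hγ) (inv_mem (hmem s))
      have hgs : f (e ^ s * g * (e ^ s)⁻¹) = ρ ⟨φ ^ s * γ * (φ ^ s)⁻¹, hγs⟩ :=
        map_eq (map_pow_eq he s (hmem s)) hg hγs
      have h2 := hD.wt (φ ^ s * γ * (φ ^ s)⁻¹) hγs (conj _ hγg) _ hgs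
      have h3 : φ ((φ ^ s * γ * (φ ^ s)⁻¹) W) =
          (φ * (φ ^ s * γ * (φ ^ s)⁻¹) * φ⁻¹) (φ W) := by
        have h4 : φ⁻¹ (φ W) = W := φ.symm_apply_apply W
        change _ = φ ((φ ^ s * γ * (φ ^ s)⁻¹) (φ⁻¹ (φ W)))
        rw [h4]
      have h5 : e ^ (s + 1) * g * (e ^ (s + 1))⁻¹ = e * (e ^ s * g * (e ^ s)⁻¹) * e⁻¹ := by
        rw [pow_succ']
        group
      have h6 : φ ^ (s + 1) * γ * (φ ^ (s + 1))⁻¹ =
          φ * (φ ^ s * γ * (φ ^ s)⁻¹) * φ⁻¹ := by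
        rw [pow_succ']
        group
      rw [h1, prod_succ, h5, h6, map_mul]
      calc φ ((φ ^ s) (t g)) * (w * φ W) = w * φ ((φ ^ s) (t g) * W) := by
            rw [map_mul]; ring
        _ = w * φ (t (e ^ s * g * (e ^ s)⁻¹) * (φ ^ s * γ * (φ ^ s)⁻¹) W) := by
            rw [ih γ hγ hγg g hg]
        _ = (φ (t (e ^ s * g * (e ^ s)⁻¹)) * w) * φ ((φ ^ s * γ * (φ ^ s)⁻¹) W) := by
            rw [map_mul]; ring
        _ = _ := by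
            rw [h2, h3]; ring
  have hfix : ∀ γ ∈ H, γ ∈ geo p Ω → γ (∏ j ∈ range s, (φ ^ j) d) = ∏ j ∈ range s, (φ ^ j) d := by
    intro γ hγ hγg
    rw [map_prod]
    refine Finset.prod_congr rfl (fun j _ => ?_)
    have h1 : (φ ^ j)⁻¹ * γ * (φ ^ j) ∈ H :=
      mul_mem (mul_mem (inv_mem (hmem j)) hγ) (hmem j)
    have h2 : (φ ^ j)⁻¹ * γ * (φ ^ j) ∈ geo p Ω := by
      have h3 := conj ((φ ^ j)⁻¹) hγg
      rwa [inv_inv] at h3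
    have h3 := hD.df _ h1 h2
    have h4 : γ ((φ ^ j) d) = (φ ^ j) (((φ ^ j)⁻¹ * γ * (φ ^ j)) d) := by
      change _ = (φ ^ j) ((φ ^ j).symm (γ ((φ ^ j) d)))
      rw [AlgEquiv.apply_symm_apply]
    rw [h4, h3]
  set W := ∏ j ∈ range s, (φ ^ j) w with hW
  set D := ∏ j ∈ range s, (φ ^ j) d with hDd
  have hW0 : W ≠ 0 := prod_ne φ hD.w0 s
  refine ⟨hD.z0, ?_, prod_ne φ hD.d0 s, hD.t0, hD.tm, hD.tk, hD.ts, hD.zt, ?_, hfix, ?_⟩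
  · exact mul_ne_zero (hD.t0 u hu hug gu hgu) ((map_ne_zero u).2 hW0)
  · intro γ hγ hγg g hg
    set γs := φ ^ s * γ * (φ ^ s)⁻¹ with hγs'
    set gs := e ^ s * g * (e ^ s)⁻¹ with hgs'
    have hγs : γs ∈ H := mul_mem (mul_mem (hmem s) hγ) (inv_mem (hmem s))
    have hγsg : γs ∈ geo p Ω := conj _ hγg
    have hgs : f gs = ρ ⟨γs, hγs⟩ := map_eq (map_pow_eq he s (hmem s)) hg hγs
    have h1 := hB s γ hγ hγg g hg
    have hγ' : u * γs * u⁻¹ ∈ H := mul_mem (mul_mem hu hγs) (inv_mem hu)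
    have hγ'g : u * γs * u⁻¹ ∈ geo p Ω := conj _ hγsg
    have hg' : f (gu * gs * gu⁻¹) = ρ ⟨u * γs * u⁻¹, hγ'⟩ := map_eq hgu hgs hγ'
    have h2 := hD.tm u hu hug gu gs hgu ⟨γs, hγs, hγsg, hgs⟩
    have h3 := hD.tm (u * γs * u⁻¹) hγ' hγ'g (gu * gs * gu⁻¹) gu hg' ⟨u, hu, hug, hgu⟩
    have h4 : gu * gs * gu⁻¹ * gu = gu * gs := by group
    rw [h4] at h3
    have h5 : gu * e ^ s * g * (gu * e ^ s)⁻¹ = gu * gs * gu⁻¹ := by
      rw [hgs']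
      group
    have h6 : u * φ ^ s * γ * (u * φ ^ s)⁻¹ = u * γs * u⁻¹ := by
      rw [hγs']
      group
    have h7 : (u * φ ^ s) (t g) = u ((φ ^ s) (t g)) := rfl
    have h8 : (u * γs * u⁻¹) (u W) = u (γs W) := by
      have h9 : u⁻¹ (u W) = W := u.symm_apply_apply W
      change u (γs (u⁻¹ (u W))) = _
      rw [h9]
    rw [h5, h6, h7, map_mul, h8]
    calc u ((φ ^ s) (t g)) * (t gu * u W) = t gu * u ((φ ^ s) (t g) * W) := by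
          rw [map_mul]; ring
      _ = t gu * u (t gs * γs W) := by rw [h1]
      _ = (t gu * u (t gs)) * u (γs W) := by rw [map_mul]; ring
      _ = t (gu * gs) * u (γs W) := by rw [h2]
      _ = _ := by rw [h3]; ring
  · have h1 : (u * φ ^ s) z = u ((φ ^ s) z) := rfl
    rw [h1, hA s, map_mul, map_mul, map_pow, hfix u hu hug, hD.zt u hu hug gu hgu, mul_pow]
    ring

end MP7K
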