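import Pool.Agent.Lib.MP_7f581e_K.Spec3
import Pool.Agent.Lib.MP_7f581e_Z.CS.CS

/-!
# C33 (MP_7f581e_nt), Part III, module DatX: the data at `x`
-/

set_option autoImplicit false

namespace MP7K

open MP7Z Finset MP7Z.CS_

/-- **DatX.** The data at `x`. -/
theorem lDatX (_h1 : MP7Z.CstStmt) (h2 : LStmtLevX) (h3 : MP7Z.CStmtTL) (h4 : MP7Z.CStmtFr) :
    LStmtDatX := by
  intro p _ ℓ hℓ hℓp Ω _ _ _ x hx H hH hop hmu P _ _ ρ hP hfin P' _ _ f hf hcen hcard φ hφ e he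
  have hℓF : Fact ℓ.Prime := ⟨hℓ⟩
  obtain ⟨c₀, hc₀⟩ : ∃ c₀, c₀ = ρ ⟨φ, hφ⟩ := ⟨_, rfl⟩
  rw [← hc₀] at he
  -- the group `Q`
  obtain ⟨Q, hQdef⟩ : ∃ Q : Subgroup P, Q = img ρ := ⟨_, rfl⟩
  have hQ : ∀ s, s ∈ Q ↔ ∃ (γ : Ω ≃ₐ[ZMod p] Ω) (h : γ ∈ H), γ ∈ geo p Ω ∧ ρ ⟨γ, h⟩ = s := by
    intro s
    rw [hQdef]
    exact mem_img
  have hQc : ∀ s, s ∈ Q ↔ c₀ * s * c₀⁻¹ ∈ Q := by
    intro s
    constructor
    · intro hs
      obtain ⟨γ, h, hg, rfl⟩ := (hQ s).1 hs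
      refine (hQ _).2 ⟨φ * γ * φ⁻¹, mul_mem (mul_mem hφ h) (inv_mem hφ), geo_conj hg, ?_⟩
      rw [hc₀]
      rw [← map_mul, ← map_inv, ← map_mul]
      rfl
    · intro hs
      obtain ⟨γ, h, hg, h2⟩ := (hQ _).1 hs
      refine (hQ _).2 ⟨φ⁻¹ * γ * φ, mul_mem (mul_mem (inv_mem hφ) h) hφ, geo_conj' hg, ?_⟩
      have h3 : (⟨φ⁻¹ * γ * φ, mul_mem (mul_mem (inv_mem hφ) h) hφ⟩ : H) =
        (⟨φ, hφ⟩ : H)⁻¹ * ⟨γ, h⟩ * ⟨φ, hφ⟩ := rfl
      rw [h3, map_mul, map_mul, h2, map_inv, ← hc₀]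
      group
  obtain ⟨cj, hcj⟩ := exists_cj Q c₀ hQc
  have hcj1 : ∀ s : Q, (cj s : P) = ρ ⟨φ, hφ⟩ * s * (ρ ⟨φ, hφ⟩)⁻¹ := by
    intro s
    rw [hcj, hc₀]
  obtain ⟨E, hE, act, φE, hact, hφE, hinj, hcomm, hEc, htr, hsep, hfix⟩ :=
    h2 p Ω x hx H hH hop P ρ hfin φ hφ Q hQ cj hcj1
  have hFQ : Finite Q := inferInstance
  -- the extension
  obtain ⟨Q', hQ'⟩ : ∃ Q' : Subgroup P', Q' = Q.comap f := ⟨_, rfl⟩
  have hmQ' : ∀ g, g ∈ Q' ↔ f g ∈ Q := by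
    intro g
    rw [hQ']
    exact Iff.rfl
  obtain ⟨fQ, hfQ⟩ : ∃ fQ : Q' →* Q, ∀ g : Q', (fQ g : P) = f g :=
    ⟨(f.comp Q'.subtype).codRestrict Q (fun g => (hmQ' g).1 g.2), fun g => rfl⟩
  have hfQs : Function.Surjective fQ := by
    intro s
    obtain ⟨g, hg⟩ := hf (s : P)
    refine ⟨⟨g, (hmQ' g).2 (hg ▸ s.2)⟩, Subtype.ext ?_⟩
    rw [hfQ]
    exact hg
  have hker : ∀ g : Q', g ∈ fQ.ker ↔ (g : P') ∈ f.ker := by
    intro g
    rw [MonoidHom.mem_ker, MonoidHom.mem_ker, ← hfQ]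
    exact ⟨fun h => by rw [h]; rfl, fun h => Subtype.ext h⟩
  -- the roots of unity
  have hℓ0 : (ℓ : Cst p Ω) ≠ 0 := by
    have : CharP (Cst p Ω) p := charP_of_injective_algebraMap
      (algebraMap (ZMod p) (Cst p Ω)).injective p
    intro h0
    rw [CharP.cast_eq_zero_iff (Cst p Ω) p] at h0
    exact hℓp ((Nat.prime_dvd_prime_iff_eq Fact.out hℓ).1 h0).symm
  have : NeZero ((ℓ : ℕ) : Cst p Ω) := ⟨hℓ0⟩
  have : NeZero ℓ := ⟨hℓ.ne_zero⟩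
  have hcardr : Nat.card (rootsOfUnity ℓ (Cst p Ω)) = ℓ :=
    HasEnoughRootsOfUnity.natCard_rootsOfUnity (Cst p Ω) ℓ
  let jf : f.ker ≃* rootsOfUnity ℓ (Cst p Ω) := mulEquivOfPrimeCardEq hcard hcardr
  obtain ⟨jj, hjj⟩ : ∃ jj : fQ.ker →* (Cst p Ω)ˣ, ∀ (b : fQ.ker),
      jj b = ((jf ⟨(b : Q'), (hker b).1 b.2⟩ : rootsOfUnity ℓ (Cst p Ω)) : (Cst p Ω)ˣ) := by
    refine ⟨{ toFun := fun b => ((jf ⟨((b : Q') : P'), (hker b).1 b.2⟩ :
                rootsOfUnity ℓ (Cst p Ω)) : (Cst p Ω)ˣ)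
              map_one' := ?_
              map_mul' := ?_ }, fun b => rfl⟩
    · have h1 : (⟨((1 : fQ.ker) : Q'), (hker _).1 (1 : fQ.ker).2⟩ : f.ker) = 1 := rfl
      rw [h1, map_one]
      rfl
    · intro b b'
      have h1 : (⟨(((b * b' : fQ.ker) : Q') : P'), (hker _).1 (b * b' : fQ.ker).2⟩ : f.ker) =
        ⟨((b : Q') : P'), (hker b).1 b.2⟩ * ⟨((b' : Q') : P'), (hker b').1 b'.2⟩ := rfl
      rw [h1, map_mul]
      rfl
  have hjjℓ : ∀ b, jj b ^ ℓ = 1 := by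
    intro b
    rw [hjj]
    exact (mem_rootsOfUnity _ _).1 (jf _).2
  obtain ⟨cj', hcj'⟩ := exists_cj Q' e (by
    intro g
    rw [hmQ', hmQ', hQc, map_mul, map_mul, map_inv, he])
  have hcenQ : ∀ b ∈ fQ.ker, ∀ g : Q', b * g = g * b := by
    intro b hb g
    exact Subtype.ext (hcen b ((hker b).1 hb) g)
  have hcjc : ∀ g, fQ (cj' g) = cj (fQ g) := by
    intro g
    apply Subtype.ext
    rw [hfQ, hcj', hcj, hfQ, map_mul, map_mul, map_inv, he]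
  have hcjk : ∀ b ∈ fQ.ker, cj' b = b := by
    intro b hb
    apply Subtype.ext
    rw [hcj', ← hcen b ((hker b).1 hb) e, mul_inv_cancel_right]
  -- the crossed homomorphism
  obtain ⟨t, ht0, htm, htj⟩ := h3 (Cst p Ω) E ⟨x, hE.mem⟩ htr hsep ℓ hℓ Q (hP.to_subgroup Q) act
    hinj hfix Q' fQ hfQs hcenQ jj
  have htk : ∀ a ∈ fQ.ker, t a ^ ℓ = 1 ∧ φE (t a) = t a := by
    intro a ha
    have h1 : t a ^ ℓ = 1 := by
      have h5 : t a = algebraMap (Cst p Ω) E (jj ⟨a, ha⟩) := htj ⟨a, ha⟩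
      rw [h5, ← map_pow, ← Units.val_pow_eq_pow_val, hjjℓ, Units.val_one, map_one]
    refine ⟨h1, Subtype.ext ?_⟩
    rw [hφE]
    apply hmu _ _ φ hφ
    have h6 := congrArg (fun g : E => (g : Ω)) h1
    exact h6
  obtain ⟨z, w, d, hz0, hw0, hd0, hz, hw, hd, hφz⟩ := h4 (Cst p Ω) E Q Q' act cj φE fQ cj' t ℓ
    hinj hcomm hfQs hcjc hcjk ht0 htm htk
  -- translation
  obtain ⟨t', ht'⟩ : ∃ t' : P' → Ω, ∀ (g : P') (h : g ∈ Q'), t' g = ((t ⟨g, h⟩ : E) : Ω) := by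
    classical
    refine ⟨fun g => if h : g ∈ Q' then ((t ⟨g, h⟩ : E) : Ω) else 1, fun g h => ?_⟩
    exact dif_pos h
  have hgQ : ∀ (γ : Ω ≃ₐ[ZMod p] Ω) (hγ : γ ∈ H), γ ∈ geo p Ω → ∀ g : P',
      f g = ρ ⟨γ, hγ⟩ → g ∈ Q' := by
    intro γ hγ hg g h
    rw [hmQ', h]
    exact (hQ _).2 ⟨γ, hγ, hg, rfl⟩
  have hactE : ∀ (s : Q) (γ : Ω ≃ₐ[ZMod p] Ω) (h : γ ∈ H), γ ∈ geo p Ω →
      ρ ⟨γ, h⟩ = s → ∀ g : E, ((act s g : E) : Ω) = γ (g : Ω) := by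
    intro s γ h hg h2 g
    have h3 := hact γ h hg g
    have h4 : (⟨ρ ⟨γ, h⟩, (hQ _).2 ⟨γ, h, hg, rfl⟩⟩ : Q) = s := Subtype.ext h2
    rw [h4] at h3
    exact h3
  refine ⟨t', z, w, d, ?_⟩
  exact
    { z0 := fun h => hz0 (Subtype.ext h)
      w0 := fun h => hw0 (Subtype.ext h)
      d0 := fun h => hd0 (Subtype.ext h)
      t0 := by
        intro γ hγ hg g hfg
        rw [ht' g (hgQ γ hγ hg g hfg)]
        exact fun h => ht0 _ (Subtype.ext h)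
      tm := by
        intro γ hγ hg g h hfg hfh
        obtain ⟨γ', hγ', hg', hfh'⟩ := hfh
        have hgm := hgQ γ hγ hg g hfg
        have hhm := hgQ γ' hγ' hg' h hfh'
        rw [ht' (g * h) (mul_mem hgm hhm), ht' g hgm, ht' h hhm]
        have h1 := htm ⟨g, hgm⟩ ⟨h, hhm⟩
        have h2 : (⟨g, hgm⟩ * ⟨h, hhm⟩ : Q') = ⟨g * h, mul_mem hgm hhm⟩ := rfl
        rw [h2] at h1
        rw [h1]
        have h3 := hactE (fQ ⟨g, hgm⟩) γ hγ hg (by rw [hfQ]; exact hfg.symm) (t ⟨h, hhm⟩)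
        change ((t ⟨g, hgm⟩ : E) : Ω) * ((act (fQ ⟨g, hgm⟩) (t ⟨h, hhm⟩) : E) : Ω) = _
        rw [h3]
      tk := by
        intro b hb
        have hbm : b ∈ Q' := by
          rw [hmQ', MonoidHom.mem_ker.1 hb]
          exact one_mem _
        have hbk : (⟨b, hbm⟩ : Q') ∈ fQ.ker := (hker _).2 hb
        have h1 := htj ⟨⟨b, hbm⟩, hbk⟩
        rw [ht' b hbm]
        constructor
        · have h4 := congrArg (fun g : E => (g : Ω)) (htk _ hbk).1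
          exact h4
        · intro h2
          have h3 : t ⟨b, hbm⟩ = 1 := Subtype.ext h2
          have h4 : algebraMap (Cst p Ω) E (jj ⟨⟨b, hbm⟩, hbk⟩) = 1 := by rw [← h1]; exact h3
          have h5 : ((jj ⟨⟨b, hbm⟩, hbk⟩ : (Cst p Ω)ˣ) : Cst p Ω) = 1 :=
            (algebraMap (Cst p Ω) E).injective (by rw [h4, map_one])
          have h6 : jj ⟨⟨b, hbm⟩, hbk⟩ = 1 := Units.ext h5
          rw [hjj] at h6
          have h7 : jf ⟨b, hb⟩ = 1 := Subtype.ext h6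
          rw [map_eq_one_iff jf jf.injective] at h7
          exact congrArg Subtype.val h7
      ts := by
        intro c hc
        have hcm : c ∈ Cst p Ω := mem_cst_of_pow hℓ.pos hc
        have hc0 : c ≠ 0 := by
          rintro rfl
          rw [zero_pow hℓ.ne_zero] at hc
          exact zero_ne_one hc
        have h1 : (⟨c, hcm⟩ : Cst p Ω) ≠ 0 := fun h => hc0 (congrArg Subtype.val h)
        have h2 : Units.mk0 (⟨c, hcm⟩ : Cst p Ω) h1 ∈ rootsOfUnity ℓ (Cst p Ω) := by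
          rw [mem_rootsOfUnity]
          apply Units.ext
          apply Subtype.ext
          exact hc
        obtain ⟨b, hb⟩ := jf.surjective ⟨_, h2⟩
        have hbm : (b : P') ∈ Q' := by
          rw [hmQ', MonoidHom.mem_ker.1 b.2]
          exact one_mem _
        have hbk : (⟨(b : P'), hbm⟩ : Q') ∈ fQ.ker := (hker _).2 b.2
        refine ⟨b, b.2, ?_⟩
        rw [ht' b hbm]
        have h3 := htj ⟨⟨b, hbm⟩, hbk⟩
        have h4 : t ⟨b, hbm⟩ = algebraMap (Cst p Ω) E (jj ⟨⟨b, hbm⟩, hbk⟩) := h3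
        rw [h4, hjj]
        have h5 : (⟨((⟨(b : P'), hbm⟩ : Q') : P'), (hker _).1 hbk⟩ : f.ker) = b := rfl
        rw [h5, hb]
        rfl
      zt := by
        intro γ hγ hg g hfg
        have hgm := hgQ γ hγ hg g hfg
        have h1 := hz ⟨g, hgm⟩
        have h2 := hactE (fQ ⟨g, hgm⟩) γ hγ hg (by rw [hfQ]; exact hfg.symm) z
        rw [h1] at h2
        rw [ht' g hgm, ← h2]
        rfl
      wt := by
        intro γ hγ hg g hfg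
        have hgm := hgQ γ hγ hg g hfg
        have h1 := hw ⟨g, hgm⟩
        have hγ' : φ * γ * φ⁻¹ ∈ H := mul_mem (mul_mem hφ hγ) (inv_mem hφ)
        have hegm : e * g * e⁻¹ ∈ Q' := by
          rw [hmQ', map_mul, map_mul, map_inv, he, ← hQc]
          exact (hmQ' g).1 hgm
        have h2 := hactE (cj (fQ ⟨g, hgm⟩)) (φ * γ * φ⁻¹) hγ' (geo_conj hg) (by
          rw [hcj1, hfQ]
          have h3 : (⟨φ * γ * φ⁻¹, hγ'⟩ : H) = ⟨φ, hφ⟩ * ⟨γ, hγ⟩ * (⟨φ, hφ⟩)⁻¹ := rfl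
          rw [h3, map_mul, map_mul, map_inv]
          change _ = _ * f g * _
          rw [hfg]) w
        rw [ht' g hgm, ht' (e * g * e⁻¹) hegm, ← h2]
        have h4 : cj' ⟨g, hgm⟩ = ⟨e * g * e⁻¹, hegm⟩ := Subtype.ext (hcj' _)
        rw [h4] at h1
        have h5 := congrArg (fun g : E => (g : Ω)) h1
        rw [← hφE (t ⟨g, hgm⟩)]
        exact h5
      df := by
        intro γ hγ hg
        have h1 := hactE ⟨ρ ⟨γ, hγ⟩, (hQ _).2 ⟨γ, hγ, hg, rfl⟩⟩ γ hγ hg rfl d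
        rw [hd] at h1
        exact h1.symm
      zd := by
        rw [← hφE z, hφz]
        rfl }

end MP7K
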