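import Pool.Agent.Lib.MP_7f581e_K.Spec3

/-!
# C33, task L/Dvd: two Frobenius lifts
-/

set_option autoImplicit false

namespace MP7K

open MP7Z Finset

namespace LDvdM

section

variable {p : ℕ} [Fact p.Prime] {Ω : Type} [Field Ω] [Algebra (ZMod p) Ω]

theorem cst (g : Ω ≃ₐ[ZMod p] Ω) {c : Ω} (hc : c ∈ Cst p Ω) : g c ∈ Cst p Ω := by
  rw [mem_algebraicClosure_iff] at hc ⊢
  exact IsAlgebraic.algHom g.toAlgHom hc

theorem frob {φ : Ω ≃ₐ[ZMod p] Ω} {a : ℕ} (h : ∀ c ∈ Cst p Ω, φ c = c ^ (p ^ a)) (i : ℕ) :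
    ∀ c ∈ Cst p Ω, (φ ^ i) c = c ^ (p ^ (a * i)) := by
  induction i with
  | zero => intro c _; simp
  | succ i ih =>
    intro c hc
    rw [pow_succ]
    change (φ ^ i) (φ c) = _
    rw [h c hc, map_pow, ih c hc, ← pow_mul, ← pow_add, Nat.mul_succ]

omit [Fact p.Prime] in
theorem dvd_exp {M j : ℕ} (hp : 1 < p) (h : p ^ M - 1 ∣ p ^ j - 1) : M ∣ j := by
  have h1 := Nat.gcd_eq_left h
  rw [Nat.pow_sub_one_gcd_pow_sub_one] at h1
  have h2 : p ^ (Nat.gcd M j) = p ^ M := by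
    have h3 : 1 ≤ p ^ (Nat.gcd M j) := Nat.one_le_pow _ _ (by omega)
    have h4 : 1 ≤ p ^ M := Nat.one_le_pow _ _ (by omega)
    omega
  have h3 := Nat.pow_right_injective hp h2
  have h4 : Nat.gcd M j ∣ j := Nat.gcd_dvd_right _ _
  rwa [h3] at h4

/-- If `θ` is a primitive root of unity of order `p ^ M - 1` and the powers `p ^ b`, `p ^ c` of `θ`
agree, `b ≤ c`, then `M ∣ c - b`. -/
theorem dvd_of_eq {R : Type} [Field R] [CharP R p] {M : ℕ} (hM : 0 < M) {θ : R}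
    (hθ : IsPrimitiveRoot θ (p ^ M - 1)) {b c : ℕ} (hbc : b ≤ c)
    (h : θ ^ (p ^ b) = θ ^ (p ^ c)) : M ∣ c - b := by
  have hp : 1 < p := (Fact.out : p.Prime).one_lt
  have h1 : iterateFrobenius R p b θ = iterateFrobenius R p b (θ ^ (p ^ (c - b))) := by
    rw [iterateFrobenius_def, iterateFrobenius_def, ← pow_mul, ← pow_add,
      Nat.sub_add_cancel hbc, h]
  have h2 : θ = θ ^ (p ^ (c - b)) := (iterateFrobenius R p b).injective h1
  have hM1 : 1 < p ^ M := Nat.one_lt_pow hM.ne' hp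
  have hθ0 : θ ≠ 0 := (hθ.isUnit (by omega)).ne_zero
  have h3 : θ ^ (p ^ (c - b) - 1) = 1 := by
    have h4 : 1 ≤ p ^ (c - b) := Nat.one_le_pow _ _ (by omega)
    apply mul_right_cancel₀ hθ0
    rw [← pow_succ, Nat.sub_add_cancel h4, ← h2, one_mul]
  exact dvd_exp hp (hθ.dvd_of_pow_eq_one _ h3)

end

end LDvdM

open LDvdM in
theorem lDvd : LStmtDvd := by
  intro p _ Ω _ _ _ H φ φ' a a' ha ha' hφ hφ' hDG hφ'H
  have hp : 1 < p := (Fact.out : p.Prime).one_lt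
  have hcp : CharP (Cst p Ω) p :=
    charP_of_injective_algebraMap (algebraMap (ZMod p) (Cst p Ω)).injective p
  have hM : 0 < a * a' := Nat.mul_pos ha ha'
  have hn : ((p ^ (a * a') - 1 : ℕ) : Cst p Ω) ≠ 0 := by
    have h1 : 1 ≤ p ^ (a * a') := Nat.one_le_pow _ _ (by omega)
    rw [Nat.cast_sub h1, Nat.cast_pow, CharP.cast_eq_zero, zero_pow hM.ne',
      zero_sub, Nat.cast_one]
    exact neg_ne_zero.2 one_ne_zero
  have : NeZero ((p ^ (a * a') - 1 : ℕ) : Cst p Ω) := ⟨hn⟩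
  obtain ⟨θ, hθ⟩ := HasEnoughRootsOfUnity.exists_primitiveRoot (Cst p Ω) (p ^ (a * a') - 1)
  have hdvd : a ∣ a' := by
    obtain ⟨u, _, hug, i, hi⟩ := hDG.2 φ' hφ'H {(θ : Ω)}
    have h1 := hi (θ : Ω) (Finset.mem_singleton_self _)
    rw [hug _ (cst _ θ.2), frob hφ i θ θ.2, hφ' θ θ.2] at h1
    have h2 : θ ^ (p ^ a') = θ ^ (p ^ (a * i)) := Subtype.ext h1
    rcases le_total a' (a * i) with h3 | h3
    · have h4 := dvd_of_eq hM hθ h3 h2
      have h5 : a ∣ a * i - a' := (Dvd.intro _ rfl).trans h4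
      have h6 : a ∣ a * i := Dvd.intro _ rfl
      have h7 : a' = a * i - (a * i - a') := by omega
      rw [h7]
      exact Nat.dvd_sub h6 h5
    · have h4 := dvd_of_eq hM hθ h3 h2.symm
      have h5 : a ∣ a' - a * i := (Dvd.intro _ rfl).trans h4
      have h6 : a ∣ a * i := Dvd.intro _ rfl
      have h7 : a' = (a' - a * i) + a * i := by omega
      rw [h7]
      exact Nat.dvd_add h5 h6
  obtain ⟨s, hs⟩ := hdvd
  have hs0 : 0 < s := by
    rcases Nat.eq_zero_or_pos s with h | h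
    · rw [h, mul_zero] at hs
      omega
    · exact h
  refine ⟨s, φ' * (φ ^ s)⁻¹, hs0, hs, mul_mem hφ'H (inv_mem (pow_mem hDG.1 s)), ?_, by group⟩
  intro c hc
  have hb : (φ ^ s)⁻¹ c ∈ Cst p Ω := cst _ hc
  change φ' ((φ ^ s)⁻¹ c) = c
  rw [hφ' _ hb, hs, ← frob hφ s _ hb]
  exact (φ ^ s).apply_symm_apply c

end MP7K
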