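import Pool.Agent.Lib.MP_7f581e_K.Spec3
import Pool.Agent.Lib.MP_7f581e_Z.CS.Lev

/-!
# C33 (MP_7f581e_nt), Part III, module `LevX`: the level of `gker ρ`
-/

set_option autoImplicit false

namespace MP7K

open MP7Z

theorem lLevX (hLvl : LvlStmt) (_hFrbK : FrbKStmt) (hGal : GalStmt) : LStmtLevX := by
  classical
  intro p _ Ω _ _ _ x hst H hHx hOpn P _ ρ hfin φ hφ Q hQ cj hcj
  obtain ⟨S₁, hS₁⟩ := hOpn
  obtain ⟨S₂, hS₂⟩ := hfin
  obtain ⟨E, hE, hFx, hmem, hnorm⟩ := hGal p Ω x hst (gker ρ) (S₁ ∪ S₂) (by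
      rintro γ h1
      rw [mem_Fx]
      intro c hc
      rcases Set.mem_insert_iff.1 hc with rfl | hc
      · exact mem_Gx.1 (hHx h1.2.1)
      · exact h1.1 c hc) (by
      intro γ hγ
      rw [mem_Fx] at hγ
      have h1 : γ ∈ Gx p x := mem_Gx.2 (hγ _ (Or.inl (Set.mem_insert _ _)))
      have h2 : γ ∈ geo p Ω := fun c hc => hγ c (Or.inl (Set.mem_insert_of_mem _ hc))
      have h3 : γ ∈ H := hS₁ γ h1 fun s hs =>
        hγ s (Or.inr (Finset.mem_coe.2 (Finset.mem_union_left _ hs)))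
      have h4 := hS₂ ⟨γ, h3⟩ fun s hs =>
        hγ s (Or.inr (Finset.mem_coe.2 (Finset.mem_union_right _ hs)))
      exact ⟨h2, h3, h4⟩)
  -- elements of `H` preserve `E`
  have hpres : ∀ τ ∈ H, ∀ f, f ∈ E ↔ τ f ∈ E := by
    intro τ hτ
    apply hnorm
    intro h
    refine ⟨Lev_gker ρ hτ, fun hh => ?_⟩
    have h1 := Lev_gker ρ (inv_mem hτ) hh
    have h2 : τ⁻¹ * (τ * h * τ⁻¹) * τ⁻¹⁻¹ = h := by group
    rwa [h2] at h1
  -- the key lemma: the action depends only on the image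
  have hfixE : ∀ c ∈ gker ρ, ∀ f ∈ E, c f = f := fun c hc f hf => (hmem f).1 hf c hc
  have hkey : ∀ (γ γ' : Ω ≃ₐ[ZMod p] Ω) (hγ : γ ∈ H) (_ : γ ∈ geo p Ω)
      (hγ' : γ' ∈ H) (_ : γ' ∈ geo p Ω), ρ ⟨γ, hγ⟩ = ρ ⟨γ', hγ'⟩ →
      ∀ f ∈ E, γ f = γ' f := by
    intro γ γ' h1 h3 h1' h3' heq f hf
    have h4 : γ'⁻¹ * γ ∈ gker ρ := by
      refine ⟨mul_mem (inv_mem h3') h3, mul_mem (inv_mem h1') h1, ?_⟩
      have e : (⟨γ'⁻¹ * γ, mul_mem (inv_mem h1') h1⟩ : H) = (⟨γ', h1'⟩ : H)⁻¹ * ⟨γ, h1⟩ := rfl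
      rw [e, map_mul, map_inv, heq, inv_mul_cancel]
    have h5 : γ'⁻¹ (γ f) = f := hfixE _ h4 f hf
    have h6 : γ' (γ'⁻¹ (γ f)) = γ f := γ'.apply_symm_apply _
    rw [← h6, h5]
  -- representatives
  have hrep : ∀ s : Q, ∃ (γ : Ω ≃ₐ[ZMod p] Ω) (h : γ ∈ H), γ ∈ geo p Ω ∧ ρ ⟨γ, h⟩ = s :=
    fun s => (hQ s).1 s.2
  choose g gH gg gs using hrep
  let act : Q →* (E ≃ₐ[Cst p Ω] E) :=
    { toFun := fun s => Lev_resA (g s) (hpres (g s) (gH s)) (gg s)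
      map_one' := by
        ext f
        change g 1 (f : Ω) = f
        have h := hkey (g 1) 1 (gH 1) (gg 1) (one_mem _) (one_mem _) (by
          rw [gs]
          exact (map_one ρ).symm) f f.2
        rw [h]
        rfl
      map_mul' := by
        intro s r
        ext f
        change g (s * r) (f : Ω) = g s (g r (f : Ω))
        have h := hkey (g (s * r)) (g s * g r) (gH _) (gg _) (mul_mem (gH s) (gH r))
          (mul_mem (gg s) (gg r)) (by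
          have e : (⟨g s * g r, mul_mem (gH s) (gH r)⟩ : H) = ⟨g s, gH s⟩ * ⟨g r, gH r⟩ := rfl
          rw [gs, e, map_mul, gs, gs]
          rfl) f f.2
        rw [h]
        rfl }
  have hact : ∀ (s : Q) (f : E), ((act s f : E) : Ω) = g s (f : Ω) := fun s f => rfl
  have hact' : ∀ (γ : Ω ≃ₐ[ZMod p] Ω) (hγ : γ ∈ H) (_ : γ ∈ geo p Ω) (s : Q)
      (_ : ρ ⟨γ, hγ⟩ = s) (f : E), ((act s f : E) : Ω) = γ (f : Ω) := by
    intro γ h1 h3 s h4 f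
    rw [hact]
    exact hkey _ _ (gH s) (gg s) h1 h3 (by rw [gs, h4]) f f.2
  obtain ⟨hcurve, htr, hsep⟩ := (hLvl p Ω x hst).1 E hE
  refine ⟨E, hE, act, Lev_res φ (hpres φ hφ), ?_, fun f => rfl, ?_, ?_, hcurve, htr, hsep, ?_⟩
  · intro γ hγ hγg f
    exact hact' γ hγ hγg _ rfl f
  · -- the action is faithful
    rw [injective_iff_map_eq_one]
    intro s hs1
    have h1 : g s ∈ Fx p (E : Set Ω) := by
      rw [mem_Fx]
      intro f hf
      have h2 := hact s ⟨f, hf⟩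
      rw [hs1] at h2
      exact h2.symm
    rw [hFx] at h1
    obtain ⟨_, h3, h4⟩ := h1
    have h5 : ρ ⟨g s, h3⟩ = s := gs s
    rw [h4] at h5
    exact Subtype.ext h5.symm
  · -- compatibility with `φ`
    intro s f
    apply Subtype.ext
    rw [Lev_res_apply, hact]
    have h1 : φ * g s * φ⁻¹ ∈ H := mul_mem (mul_mem hφ (gH s)) (inv_mem hφ)
    have h2 := hact' (φ * g s * φ⁻¹) h1 (Lev_geo φ (gg s)) (cj s) (by
        have e : (⟨φ * g s * φ⁻¹, h1⟩ : H) = ⟨φ, hφ⟩ * ⟨g s, gH s⟩ * (⟨φ, hφ⟩ : H)⁻¹ := rfl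
        rw [e, map_mul, map_mul, map_inv, gs, hcj]) (Lev_res φ (hpres φ hφ) f)
    rw [h2, Lev_res_apply]
    have h3 : (φ⁻¹ : Ω ≃ₐ[ZMod p] Ω) (φ (f : Ω)) = f := φ.symm_apply_apply _
    change φ (g s (f : Ω)) = φ (g s ((φ⁻¹ : Ω ≃ₐ[ZMod p] Ω) (φ (f : Ω))))
    rw [h3]
  · intro s
    apply Subtype.ext
    rw [hact]
    exact mem_Gx.1 (hHx (gH s))

end MP7K
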