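import Pool.Agent.Lib.MP_7f581e_K.Spec3
import Pool.Agent.Lib.MP_7f581e_Z.CS.NE

/-!
# C33, Part III: the norm step
-/

set_option autoImplicit false

namespace MP7K

open MP7Z Finset

theorem lNEW (h1 : MP7Z.HNStmt) (h2 : MP7Z.CStmtH90c) : LStmtNEW := by
  classical
  intro 𝕜 K _ _ _ _ _ ℓ q φ d m hℓ hFr hd0 hm hmd hloc
  have hq2 : 2 ≤ q := hFr.primePow.two_le
  have hN0 : (∏ i ∈ Finset.range m, (φ ^ i) d) ≠ 0 :=
    Finset.prod_ne_zero_iff.2 fun i _ =>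
      (map_ne_zero_iff (φ ^ i) (φ ^ i).injective).2 hd0
  have hφN : φ (∏ i ∈ Finset.range m, (φ ^ i) d) = ∏ i ∈ Finset.range m, (φ ^ i) d :=
    NE_prod_fix φ m hd0 hmd
  have hM : 0 < m * ℓ := Nat.mul_pos hm hℓ.pos
  obtain ⟨t, htM, htN⟩ := h1 𝕜 K q φ hFr (m * ℓ) hM _ hN0 hφN hloc
  have ht0 : t ≠ 0 := by
    rintro rfl
    apply hN0
    rw [← htN]
    exact Finset.prod_eq_zero (Finset.mem_range.2 hM) (map_zero _)
  have htl0 : t ^ ℓ ≠ 0 := pow_ne_zero _ ht0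
  -- the element `b` of norm one
  have hbM : (φ ^ (m * ℓ)) (d / t ^ ℓ) = d / t ^ ℓ := by
    rw [map_div₀, map_pow, htM, NE_pow_mul φ m ℓ hmd]
  have hbprod : ∏ i ∈ Finset.range (m * ℓ), (φ ^ i) (d / t ^ ℓ) = 1 := by
    have h3 : ∀ i ∈ Finset.range (m * ℓ), (φ ^ i) (d / t ^ ℓ) =
        (φ ^ i) d / ((φ ^ i) t) ^ ℓ := fun i _ => by rw [map_div₀, map_pow]
    rw [Finset.prod_congr rfl h3, Finset.prod_div_distrib, Finset.prod_pow, htN,
      NE_prod_mul φ m ℓ hmd]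
    exact div_self (pow_ne_zero _ hN0)
  -- the element `θ`
  set R : ℕ := q ^ (m * ℓ) - 1 with hR
  have hqM : 2 ≤ q ^ (m * ℓ) := le_trans hq2 (Nat.le_self_pow hM.ne' q)
  have hR0 : (R : 𝕜) ≠ 0 := by
    have h3 : (R : 𝕜) + 1 = 0 := by
      have h4 : R + 1 = q ^ (m * ℓ) := by omega
      have h5 : ((R + 1 : ℕ) : 𝕜) = 0 := by
        rw [h4, Nat.cast_pow, hFr.card, zero_pow hM.ne']
      rw [← h5]
      push_cast
      rfl
    intro h4
    rw [h4, zero_add] at h3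
    exact one_ne_zero h3
  obtain ⟨θ, hθ⟩ : ∃ θ : 𝕜, IsPrimitiveRoot θ R := by
    have : NeZero (R : 𝕜) := ⟨hR0⟩
    exact HasEnoughRootsOfUnity.exists_primitiveRoot 𝕜 R
  have hθ0 : θ ≠ 0 := hθ.ne_zero (by omega)
  have hφθ : ∀ i : ℕ, (φ ^ i) (algebraMap 𝕜 K θ) = algebraMap 𝕜 K (θ ^ (q ^ i)) := by
    intro i
    induction i with
    | zero => rw [pow_zero, pow_zero, pow_one]; rfl
    | succ i ih =>
      rw [pow_succ', RingAut.mul_apply, ih, hFr.frob, ← pow_mul, ← pow_succ]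
  obtain ⟨c, hc0, hcM, hc⟩ := h2 K φ (m * ℓ) hM (algebraMap 𝕜 K θ)
    (by
      rw [hφθ]
      have h3 : q ^ (m * ℓ) = R + 1 := by omega
      rw [h3, pow_succ, hθ.pow_eq_one, one_mul])
    (by
      intro i hi0 hi h
      rw [hφθ] at h
      have h3 := (algebraMap 𝕜 K).injective h
      have hqi : 2 ≤ q ^ i := le_trans hq2 (Nat.le_self_pow hi0.ne' q)
      have h4 : θ ^ (q ^ i - 1) = 1 := by
        apply mul_left_cancel₀ hθ0
        rw [← pow_succ', Nat.sub_add_cancel (by omega), h3, mul_one]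
      have h5 := Nat.le_of_dvd (by omega) (hθ.dvd_of_pow_eq_one _ h4)
      have h6 : q ^ i < q ^ (m * ℓ) := Nat.pow_lt_pow_right (by omega) hi
      omega)
    (d / t ^ ℓ) (div_ne_zero hd0 htl0) hbM hbprod
  refine ⟨t, c, ht0, hc0, ?_⟩
  rw [hc]
  field_simp

end MP7K
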