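import Pool.Agent.Lib.MP_7f581e_K.Spec3

/-!
# C33, Part III: the elementary number lemma NumC
-/

set_option autoImplicit false

namespace MP7K

theorem lNumC : LStmtNumC := by
  intro a m ℓ ha hm hl
  refine ⟨a.factorization ℓ + m.factorization ℓ + 1, ?_⟩
  intro M hM r hr hdvd
  by_contra hnd
  have hg : 0 < Nat.gcd m r := Nat.gcd_pos_of_pos_left r hm
  have hq : 0 < r / Nat.gcd m r :=
    Nat.div_pos (Nat.le_of_dvd hr (Nat.gcd_dvd_right m r)) hg
  have h1 : M ≤ (a * r).factorization ℓ :=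
    (hl.pow_dvd_iff_le_factorization (Nat.mul_pos ha hr).ne').1 hdvd
  rw [Nat.factorization_mul ha.ne' hr.ne', Finsupp.add_apply] at h1
  have h2 : r.factorization ℓ =
      (Nat.gcd m r).factorization ℓ + (r / Nat.gcd m r).factorization ℓ := by
    conv_lhs => rw [← Nat.mul_div_cancel' (Nat.gcd_dvd_right m r)]
    rw [Nat.factorization_mul hg.ne' hq.ne', Finsupp.add_apply]
  have h3 : (r / Nat.gcd m r).factorization ℓ = 0 :=
    Nat.factorization_eq_zero_of_not_dvd hnd
  have h4 : (Nat.gcd m r).factorization ℓ ≤ m.factorization ℓ :=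
    (Nat.factorization_le_iff_dvd hg.ne' hm.ne').2 (Nat.gcd_dvd_left m r) ℓ
  omega

end MP7K
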