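import Pool.Agent.Lib.MP_7f581e_K.Spec3

/-!
# C33, Part III: values and local degrees of words
-/

set_option autoImplicit false
set_option linter.unusedSectionVars false
set_option linter.unusedSimpArgs false

namespace MP7K.LValM

open MP7Z MP7K Polynomial

section

variable {𝕜 E : Type} [Field 𝕜] [IsAlgClosed 𝕜] [Field E] [Algebra 𝕜 E] [IsCurveField 𝕜 E]

theorem ne_const {y : E} (hy : Transcendental 𝕜 y) (c : 𝕜) : y - algebraMap 𝕜 E c ≠ 0 := by
  intro h
  exact hy ((sub_eq_zero.1 h) ▸ isAlgebraic_algebraMap c)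

theorem ne_zero {y : E} (hy : Transcendental 𝕜 y) : y ≠ 0 := by
  have := ne_const hy 0
  simpa using this

theorem pos_ord {v : Place 𝕜 E} {f : E} (hf : f ≠ 0) : 0 < v.ord f ↔ 0 < v.pord f := by
  rw [v.lt_pord_iff hf]; rfl

theorem nonneg_ord {v : Place 𝕜 E} {f : E} (hf : f ≠ 0) : 0 ≤ v.ord f ↔ 0 ≤ v.pord f := by
  rw [v.le_pord_iff hf]; rfl

theorem R1 {v : Place 𝕜 E} {f : E} {b : 𝕜} (h : 0 < v.ord (f - algebraMap 𝕜 E b)) :
    resP v f = some b ∧ lordP v f = v.pord (f - algebraMap 𝕜 E b) := by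
  have h1 := Place.nonneg_of_ev h
  have h2 := v.ev_unique h
  constructor
  · rw [resP, if_pos h1, h2]
  · rw [lordP, if_pos h1, h2]

theorem R2 {v : Place 𝕜 E} {f : E} (hf : f ≠ 0) (h : v.pord f < 0) :
    resP v f = none ∧ lordP v f = - v.pord f := by
  have h1 : ¬ 0 ≤ v.ord f := by
    rw [nonneg_ord hf]; omega
  exact ⟨by rw [resP, if_neg h1], by rw [lordP, if_neg h1]⟩

/-- The two cases. -/
theorem cases (v : Place 𝕜 E) {y : E} (hy : Transcendental 𝕜 y) :
    (∃ b : 𝕜, 0 < v.ord (y - algebraMap 𝕜 E b)) ∨ v.pord y < 0 := by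
  by_cases h : 0 ≤ v.ord y
  · exact Or.inl ⟨v.ev y, v.ev_spec h⟩
  · right
    rw [nonneg_ord (ne_zero hy)] at h
    omega

/-- Polynomials with nonzero derivative at the value. -/
theorem polyVal {v : Place 𝕜 E} {y : E} (hy : Transcendental 𝕜 y) {b : 𝕜}
    (hb : 0 < v.ord (y - algebraMap 𝕜 E b)) (P : 𝕜[X]) (hP : P.derivative.eval b ≠ 0) :
    0 < v.ord (aeval y P - algebraMap 𝕜 E (P.eval b)) ∧
      v.pord (aeval y P - algebraMap 𝕜 E (P.eval b)) = v.pord (y - algebraMap 𝕜 E b) := by
  have hdvd : ∀ R : 𝕜[X], ∃ Q : 𝕜[X], R - C (R.eval b) = (X - C b) * Q := by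
    intro R
    have : (X - C b) ∣ R - C (R.eval b) := by
      rw [dvd_iff_isRoot]; simp
    exact this
  have hae : ∀ R Q : 𝕜[X], R - C (R.eval b) = (X - C b) * Q →
      aeval y R - algebraMap 𝕜 E (R.eval b) = (y - algebraMap 𝕜 E b) * aeval y Q := by
    intro R Q h
    have := congrArg (aeval y) h
    simpa using this
  have hy0 : 0 ≤ v.ord y := Place.nonneg_of_ev hb
  have hu : y - algebraMap 𝕜 E b ≠ 0 := ne_const hy b
  obtain ⟨Q, hQ⟩ := hdvd P
  have hQb : Q.eval b ≠ 0 := by
    have := congrArg (fun R => (derivative R).eval b) hQ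
    simp at this
    rwa [← this]
  obtain ⟨Q', hQ'⟩ := hdvd Q
  have h1 : 0 < v.ord (aeval y Q - algebraMap 𝕜 E (Q.eval b)) := by
    rw [hae Q Q' hQ', AddValuation.map_mul]
    exact lt_of_lt_of_le hb (by
      calc v.ord (y - algebraMap 𝕜 E b) = v.ord (y - algebraMap 𝕜 E b) + 0 := (add_zero _).symm
        _ ≤ _ := by gcongr; exact v.ord_aeval_nonneg hy0 Q')
  have h2 : v.ev (aeval y Q) = Q.eval b := v.ev_unique h1
  have hQn : 0 ≤ v.ord (aeval y Q) := v.ord_aeval_nonneg hy0 Q
  have h3 : ¬ 0 < v.ord (aeval y Q) := by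
    rw [← v.ev_eq_zero_iff hQn, h2]; exact hQb
  have hQ0 : aeval y Q ≠ 0 := by
    intro h
    rw [h, v.ev_zero] at h2
    exact hQb h2.symm
  rw [hae P Q hQ]
  have h4 : v.pord (aeval y Q) = 0 := by
    rw [pos_ord hQ0] at h3
    rw [nonneg_ord hQ0] at hQn
    omega
  have h5 : v.pord ((y - algebraMap 𝕜 E b) * aeval y Q) = v.pord (y - algebraMap 𝕜 E b) := by
    rw [v.pord_mul hu hQ0, h4, add_zero]
  refine ⟨?_, h5⟩
  rw [pos_ord (mul_ne_zero hu hQ0), h5, ← pos_ord hu]
  exact hb

end

section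

variable {p : ℕ} [Fact p.Prime] {𝕜 E : Type} [Field 𝕜] [IsAlgClosed 𝕜] [Algebra (ZMod p) 𝕜]
    [Field E] [Algebra 𝕜 E] [IsCurveField 𝕜 E] [Algebra (ZMod p) E]

theorem zE (c : ZMod p) : algebraMap (ZMod p) E c = algebraMap 𝕜 E (algebraMap (ZMod p) 𝕜 c) := by
  have : algebraMap (ZMod p) E = (algebraMap 𝕜 E).comp (algebraMap (ZMod p) 𝕜) :=
    Subsingleton.elim _ _
  rw [this]; rfl

theorem lin_aeval (l : (ZMod p)[X]) (y : E) : lin p l y = aeval y (Lin.addP 𝕜 l) := by
  rw [Lin.lin_eq_sum, Lin.addP, map_sum]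
  refine Finset.sum_congr rfl fun i _ => ?_
  simp only [map_mul, aeval_C, map_pow, aeval_X]
  rw [zE (𝕜 := 𝕜)]

theorem addP_deriv (l : (ZMod p)[X]) (b : 𝕜) :
    (Lin.addP 𝕜 l).derivative.eval b = algebraMap (ZMod p) 𝕜 (l.coeff 0) := by
  have : CharP 𝕜 p := charP_of_injective_algebraMap (algebraMap (ZMod p) 𝕜).injective p
  rw [Lin.addP, derivative_sum, eval_finsetSum, Finset.sum_eq_single 0]
  · simp
  · intro i _ hi
    have h0 : ((p : ℕ) : 𝕜) = 0 := CharP.cast_eq_zero 𝕜 p
    simp only [derivative_mul, derivative_C, zero_mul, zero_add, derivative_X_pow, eval_mul,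
      eval_C, eval_pow, eval_X, Nat.cast_pow, h0, map_zero, zero_pow hi, mul_zero, eval_zero]
  · intro h
    exact absurd (Finset.mem_range.2 (Nat.succ_pos _)) h

theorem addP_natDegree {l : (ZMod p)[X]} (hl : l.coeff 0 ≠ 0) : (Lin.addP 𝕜 l).natDegree ≠ 0 := by
  intro h
  obtain ⟨a, ha⟩ := natDegree_eq_zero.1 h
  have h1 := addP_deriv l (0 : 𝕜)
  rw [← ha, derivative_C, eval_zero] at h1
  exact hl ((map_eq_zero_iff _ (algebraMap (ZMod p) 𝕜).injective).1 h1.symm)

theorem trans_atom {a : Atom p} (ha : a.Ok) {y : E} (hy : Transcendental 𝕜 y) :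
    Transcendental 𝕜 (a.ev y) := by
  intro halg
  apply hy
  cases a with
  | tr c =>
    have h1 : IsAlgebraic 𝕜 (y + algebraMap (ZMod p) E c) := halg
    rw [zE (𝕜 := 𝕜)] at h1
    have h2 := h1.sub (isAlgebraic_algebraMap (A := E) (algebraMap (ZMod p) 𝕜 c))
    simpa using h2
  | inv =>
    have h1 : IsAlgebraic 𝕜 (y⁻¹) := halg
    simpa using h1.inv
  | pow n =>
    have h1 : IsAlgebraic 𝕜 (y ^ n) := halg
    have hn : 0 < n := by
      rcases Nat.eq_zero_or_pos n with h | h
      · exfalso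
        have h2 : n.Coprime p := ha
        rw [h, Nat.coprime_zero_left] at h2
        exact (Fact.out : p.Prime).one_lt.ne' h2
      · exact h
    exact h1.of_pow hn
  | add l =>
    have h1 : IsAlgebraic 𝕜 (lin p l y) := halg
    rw [lin_aeval (𝕜 := 𝕜)] at h1
    refine IsAlgebraic.of_aeval _ (addP_natDegree ha) ?_ h1
    refine mem_nonZeroDivisors_of_ne_zero ?_
    rw [Ne, leadingCoeff_eq_zero]
    refine Lin.addP_ne_zero ?_
    rintro rfl
    exact ha (coeff_zero 0)

theorem atom_val (v : Place 𝕜 E) {a : Atom p} (ha : a.Ok) {y : E} (hy : Transcendental 𝕜 y) :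
    resP v (a.ev y) = a.evP (resP v y) ∧ lordP v (a.ev y) = (a.mult (resP v y) : ℤ) * lordP v y := by
  have hchar : CharP 𝕜 p := charP_of_injective_algebraMap (algebraMap (ZMod p) 𝕜).injective p
  have hy0 : y ≠ 0 := ne_zero hy
  rcases cases v hy with ⟨b, hb⟩ | hpole
  · -- finite value
    obtain ⟨hr, hl⟩ := R1 hb
    have hu := ne_const hy b
    have hupos : 0 < v.pord (y - algebraMap 𝕜 E b) := (pos_ord hu).1 hb
    rw [hr, hl]
    cases a with
    | tr c =>
      have hev : (Atom.tr c).ev y - algebraMap 𝕜 E (b + algebraMap (ZMod p) 𝕜 c) =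
          y - algebraMap 𝕜 E b := by
        change y + algebraMap (ZMod p) E c - _ = _
        rw [zE (𝕜 := 𝕜), map_add]; ring
      have h1 := R1 (v := v) (f := (Atom.tr c).ev y) (b := b + algebraMap (ZMod p) 𝕜 c)
        (by rw [hev]; exact hb)
      rw [hev] at h1
      refine ⟨h1.1, ?_⟩
      rw [h1.2]
      simp [Atom.mult]
    | inv =>
      by_cases hb0 : b = 0
      · subst hb0
        rw [map_zero, sub_zero] at hupos hu ⊢
        have h1 := R2 (v := v) (f := y⁻¹) (inv_ne_zero hy0) (by rw [v.pord_inv hy0]; omega)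
        refine ⟨?_, ?_⟩
        · change resP v (y⁻¹) = _
          rw [h1.1]; simp [Atom.evP]
        · change lordP v (y⁻¹) = _
          rw [h1.2, v.pord_inv hy0]; simp [Atom.mult]
      · have hyo : v.pord y = 0 := by
          have h1 : 0 ≤ v.ord y := Place.nonneg_of_ev hb
          have h2 : ¬ 0 < v.ord y := by
            rw [← v.ev_eq_zero_iff h1, v.ev_unique hb]; exact hb0
          rw [pos_ord hy0] at h2
          rw [nonneg_ord hy0] at h1
          omega
        have hbE : algebraMap 𝕜 E b ≠ 0 := by simpa using hb0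
        have hev : y⁻¹ - algebraMap 𝕜 E b⁻¹ =
            -((y - algebraMap 𝕜 E b) * (algebraMap 𝕜 E b * y)⁻¹) := by
          rw [map_inv₀]; field_simp; ring
        have hpo : v.pord (y⁻¹ - algebraMap 𝕜 E b⁻¹) = v.pord (y - algebraMap 𝕜 E b) := by
          have h1 : y⁻¹ - algebraMap 𝕜 E b⁻¹ = algebraMap 𝕜 E (-1) *
            ((y - algebraMap 𝕜 E b) * (algebraMap 𝕜 E b * y)⁻¹) := by
            rw [hev]; simp
          rw [h1, v.pord_mul (by simp) (mul_ne_zero hu (inv_ne_zero (mul_ne_zero hbE hy0))),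
            v.pord_mul hu (inv_ne_zero (mul_ne_zero hbE hy0)), v.pord_inv (mul_ne_zero hbE hy0),
            v.pord_mul hbE hy0, v.pord_const, v.pord_const, hyo]
          ring
        have hne : y⁻¹ - algebraMap 𝕜 E b⁻¹ ≠ 0 := by
          rw [hev]
          exact neg_ne_zero.2 (mul_ne_zero hu (inv_ne_zero (mul_ne_zero hbE hy0)))
        have h1 := R1 (v := v) (f := y⁻¹) (b := b⁻¹) (by rw [pos_ord hne, hpo]; exact hupos)
        rw [hpo] at h1
        refine ⟨?_, ?_⟩
        · change resP v (y⁻¹) = _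
          rw [h1.1]; simp [Atom.evP, hb0]
        · change lordP v (y⁻¹) = _
          rw [h1.2]; simp [Atom.mult]
    | pow n =>
      have hn : 0 < n := by
        rcases Nat.eq_zero_or_pos n with h | h
        · exfalso
          have h2 : n.Coprime p := ha
          rw [h, Nat.coprime_zero_left] at h2
          exact (Fact.out : p.Prime).one_lt.ne' h2
        · exact h
      by_cases hb0 : b = 0
      · subst hb0
        rw [map_zero, sub_zero] at hupos hu ⊢
        have hpos : 0 < v.pord (y ^ n) := by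
          rw [v.pord_pow hy0]; positivity
        have h1 := R1 (v := v) (f := y ^ n) (b := 0) (by
          rw [map_zero, sub_zero, pos_ord (pow_ne_zero _ hy0)]; exact hpos)
        rw [map_zero, sub_zero, v.pord_pow hy0] at h1
        refine ⟨?_, ?_⟩
        · change resP v (y ^ n) = _
          rw [h1.1]; simp [Atom.evP, hn.ne']
        · change lordP v (y ^ n) = _
          rw [h1.2]; simp [Atom.mult]
      · have hd : (X ^ n : 𝕜[X]).derivative.eval b ≠ 0 := by
          rw [derivative_X_pow, eval_mul, eval_C, eval_pow, eval_X]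
          refine mul_ne_zero ?_ (pow_ne_zero _ hb0)
          intro h
          rw [CharP.cast_eq_zero_iff 𝕜 p] at h
          have h2 : n.Coprime p := ha
          have h3 : p.Coprime n := h2.symm
          exact (Fact.out : p.Prime).one_lt.ne' (Nat.Coprime.eq_one_of_dvd h3 h)
        obtain ⟨h1, h2⟩ := polyVal hy hb (X ^ n) hd
        rw [map_pow, aeval_X, eval_pow, eval_X] at h1 h2
        have h3 := R1 h1
        rw [h2] at h3
        refine ⟨?_, ?_⟩
        · change resP v (y ^ n) = _
          rw [h3.1]; rfl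
        · change lordP v (y ^ n) = _
          rw [h3.2]; simp [Atom.mult, hb0]
    | add l =>
      have hd : (Lin.addP 𝕜 l).derivative.eval b ≠ 0 := by
        rw [addP_deriv]
        intro h
        exact ha ((map_eq_zero_iff _ (algebraMap (ZMod p) 𝕜).injective).1 h)
      obtain ⟨h1, h2⟩ := polyVal hy hb (Lin.addP 𝕜 l) hd
      rw [← lin_aeval, Lin.eval_addP] at h1 h2
      have h3 := R1 h1
      rw [h2] at h3
      refine ⟨?_, ?_⟩
      · change resP v (lin p l y) = _
        rw [h3.1]; rfl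
      · change lordP v (lin p l y) = _
        rw [h3.2]; simp [Atom.mult]
  · obtain ⟨hr, hl⟩ := R2 hy0 hpole
    rw [hr, hl]
    cases a with
    | tr c =>
      have hpo : y + algebraMap (ZMod p) E c ≠ 0 ∧ v.pord (y + algebraMap (ZMod p) E c) = v.pord y := by
        rw [zE (𝕜 := 𝕜)]
        by_cases hc : algebraMap (ZMod p) 𝕜 c = 0
        · rw [hc, map_zero, add_zero]; exact ⟨hy0, rfl⟩
        · exact v.pord_add hy0 (by simpa using hc) (by rw [v.pord_const]; exact hpole)
      have h1 := R2 (v := v) hpo.1 (by rw [hpo.2]; exact hpole)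
      refine ⟨?_, ?_⟩
      · change resP v (y + algebraMap (ZMod p) E c) = _
        rw [h1.1]; rfl
      · change lordP v (y + algebraMap (ZMod p) E c) = _
        rw [h1.2, hpo.2]; simp [Atom.mult]
    | inv =>
      have h1 := R1 (v := v) (f := y⁻¹) (b := 0) (by
        rw [map_zero, sub_zero, pos_ord (inv_ne_zero hy0), v.pord_inv hy0]; omega)
      rw [map_zero, sub_zero, v.pord_inv hy0] at h1
      refine ⟨?_, ?_⟩
      · change resP v (y⁻¹) = _
        rw [h1.1]; rfl
      · change lordP v (y⁻¹) = _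
        rw [h1.2]; simp [Atom.mult]
    | pow n =>
      have hn : 0 < n := by
        rcases Nat.eq_zero_or_pos n with h | h
        · exfalso
          have h2 : n.Coprime p := ha
          rw [h, Nat.coprime_zero_left] at h2
          exact (Fact.out : p.Prime).one_lt.ne' h2
        · exact h
      have hneg : v.pord (y ^ n) < 0 := by
        rw [v.pord_pow hy0]
        exact mul_neg_of_pos_of_neg (by exact_mod_cast hn) hpole
      have h1 := R2 (v := v) (pow_ne_zero n hy0) hneg
      refine ⟨?_, ?_⟩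
      · change resP v (y ^ n) = _
        rw [h1.1]; rfl
      · change lordP v (y ^ n) = _
        rw [h1.2, v.pord_pow hy0]; simp [Atom.mult]
    | add l =>
      have hl0 : l ≠ 0 := by
        rintro rfl
        exact ha (coeff_zero 0)
      have hp1 : 1 < p := (Fact.out : p.Prime).one_lt
      have hcoef : ∀ i, l.coeff i ≠ 0 → algebraMap 𝕜 E (algebraMap (ZMod p) 𝕜 (l.coeff i)) ≠ 0 := by
        intro i hi
        simpa using hi
      have hterm : ∀ i, l.coeff i ≠ 0 →
          v.ord (algebraMap (ZMod p) E (l.coeff i) * y ^ (p ^ i)) =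
            (((p ^ i : ℕ) : ℤ) * v.pord y : ℤ) := by
        intro i hi
        rw [zE (𝕜 := 𝕜), v.ord_eq_pord (mul_ne_zero (hcoef i hi) (pow_ne_zero _ hy0)),
          v.pord_mul (hcoef i hi) (pow_ne_zero _ hy0), v.pord_const, v.pord_pow hy0, zero_add]
      have hlead : l.coeff l.natDegree ≠ 0 := by
        rw [coeff_natDegree]; exact leadingCoeff_ne_zero.2 hl0
      have hord : v.ord (lin p l y) = (((p ^ l.natDegree : ℕ) : ℤ) * v.pord y : ℤ) := by
        rw [Lin.lin_eq_sum, v.ord_sum_of_lt (i0 := l.natDegree), hterm _ hlead]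
        · exact Finset.mem_range.2 (Nat.lt_succ_self _)
        · rw [zE (𝕜 := 𝕜)]
          exact mul_ne_zero (hcoef _ hlead) (pow_ne_zero _ hy0)
        · intro i hi hne
          rw [hterm _ hlead]
          by_cases hc : l.coeff i = 0
          · rw [hc, map_zero, zero_mul, AddValuation.map_zero]; exact WithTop.coe_lt_top _
          · rw [hterm i hc, WithTop.coe_lt_coe]
            have hlt : i < l.natDegree := by
              have := Finset.mem_range.1 hi
              omega
            have h2 : p ^ i < p ^ l.natDegree := Nat.pow_lt_pow_right hp1 hlt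
            have h3 : ((p ^ i : ℕ) : ℤ) < ((p ^ l.natDegree : ℕ) : ℤ) := by exact_mod_cast h2
            nlinarith
      have hne : lin p l y ≠ 0 := by
        intro h
        rw [h, AddValuation.map_zero] at hord
        exact absurd hord WithTop.top_ne_coe
      have hpo : v.pord (lin p l y) = ((p ^ l.natDegree : ℕ) : ℤ) * v.pord y := by
        rw [v.pord_eq_iff hne]; exact hord
      have hppos : (0 : ℤ) < ((p ^ l.natDegree : ℕ) : ℤ) := by
        have : 0 < p ^ l.natDegree := Nat.pow_pos (by omega)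
        exact_mod_cast this
      have h1 := R2 (v := v) hne (by rw [hpo]; exact mul_neg_of_pos_of_neg hppos hpole)
      refine ⟨?_, ?_⟩
      · change resP v (lin p l y) = _
        rw [h1.1]; rfl
      · change lordP v (lin p l y) = _
        rw [h1.2, hpo]; simp [Atom.mult]

end

end MP7K.LValM

namespace MP7K

open MP7Z

theorem lVal : LStmtVal := by
  intro p _ 𝕜 E _ _ _ _ _ _ _ v w
  induction w with
  | nil =>
    intro _ y hy
    exact ⟨hy, rfl, by simp [multW]⟩
  | cons a w ih =>
    intro hw y hy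
    obtain ⟨h1, h2, h3⟩ := ih (fun b hb => hw b (List.mem_cons_of_mem _ hb)) y hy
    have ha : a.Ok := hw a List.mem_cons_self
    obtain ⟨h4, h5⟩ := LValM.atom_val v ha h1
    refine ⟨LValM.trans_atom ha h1, ?_, ?_⟩
    · change resP v (a.ev (ev w y)) = a.evP (evP w (resP v y))
      rw [h4, h2]
    · change lordP v (a.ev (ev w y)) = ((a.mult (evP w (resP v y)) * multW w (resP v y) : ℕ) : ℤ) * _
      rw [h5, h3, h2]
      push_cast
      ring

end MP7K
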