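import Pool.Agent.Lib.MP_7f581e_K.Spec3
import Pool.Agent.Lib.MP_7f581e_Z.EPL.WeakAux

/-!
# C33, Part III: the weak solution (after `MP_7f581e_Z/EPL/Weak.lean`)
-/

set_option autoImplicit false

namespace MP7K

open MP7Z MP7Z.EPL MP7Z.EPL.WeakAux

theorem lWeakW (h1 : LStmtChainW) (h2 : MP7Z.EPL.GasStmt) (h3 : MP7Z.EPL.IdxStmt)
    (h4 : MP7Z.EPL.StabSStmt) : LStmtWeakW := by
  classical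
  intro p hp Ω _ _ x G _ _ ψ hψ E _ _ f hf ℓ hℓ hℓp hfℓ hfc
  have hℓF : Fact ℓ.Prime := ⟨hℓ⟩
  obtain ⟨P⟩ : Nonempty (Sylow ℓ G) := inferInstance
  have hPp : IsPGroup ℓ (P : Subgroup G) := P.2
  let H : Subgroup (Ω ≃ₐ[ZMod p] Ω) := Hs x ψ (P : Subgroup G) ℓ
  let ρ : H →* (P : Subgroup G) := rh x ψ (P : Subgroup G) ℓ
  obtain ⟨Sψ, hSψ⟩ := hψ.fin
  obtain ⟨Sμ, hSμ⟩ := exists_mu (Ω := Ω) hℓ.pos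
  have hHle : H ≤ Gx p x := fun γ h => h.choose
  have hSH : ∀ γ ∈ Gx p x, (∀ s ∈ Sψ ∪ Sμ, γ s = s) → γ ∈ H := by
    intro γ hγ hs
    refine ⟨hγ, ?_, fun ζ hζ => hs ζ (Finset.mem_union_right _ (hSμ ζ hζ))⟩
    rw [hSψ ⟨γ, hγ⟩ fun s h => hs s (Finset.mem_union_left _ h)]
    exact one_mem _
  have hopn : Opn p x H := ⟨Sψ ∪ Sμ, hSH⟩
  have hmu : ∀ ζ : Ω, ζ ^ ℓ = 1 → ∀ γ ∈ H, γ ζ = ζ := fun ζ hζ γ hγ => hγ.choose_spec.2 ζ hζ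
  have hρfin : FinLevel ρ := ⟨Sψ, fun γ hs => Subtype.ext (hSψ _ hs)⟩
  -- the preimage of the Sylow subgroup
  let P' : Subgroup E := (P : Subgroup G).comap f
  let fP : P' →* (P : Subgroup G) := f.subgroupComap (P : Subgroup G)
  have hfPs : Function.Surjective fP := f.subgroupComap_surjective_of_surjective _ hf
  have hP'p : IsPGroup ℓ P' := by
    intro e
    obtain ⟨k, hk⟩ := hPp ⟨f (e : E), e.2⟩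
    refine ⟨k + 1, Subtype.ext ?_⟩
    rw [Subgroup.coe_pow, pow_succ, pow_mul]
    apply hfℓ
    rw [MonoidHom.mem_ker, map_pow]
    exact congrArg Subtype.val hk
  obtain ⟨y, H₁, hst₁, hH₁, ⟨hle, hgood⟩, ρ₁, hfin₁, hρ₁⟩ :=
    h1 p ℓ hℓ hℓp Ω x hψ.stage H hHle hopn hmu (P : Subgroup G) ρ hPp hρfin P' fP hfPs hP'p
  let ψ₀ : Gx p y →* G := rs hle ψ
  have hg₀ : RD p y ψ₀ := hgood G ψ hψ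
  have hψ₀s : Function.Surjective ψ₀ := fun g => by
    obtain ⟨γ, -, h⟩ := hg₀.reg g
    exact ⟨γ, h⟩
  have hψ₀ : ∀ (γ : Ω ≃ₐ[ZMod p] Ω) (h' : γ ∈ Gx p y) (h : γ ∈ Gx p x),
      ψ₀ ⟨γ, h'⟩ = ψ ⟨γ, h⟩ := fun _ _ _ => rfl
  let H₂ : Subgroup (Gx p y) := H₁.subgroupOf (Gx p y)
  have hmem : ∀ γ : Gx p y, γ ∈ H₂ ↔ ψ₀ γ ∈ (P : Subgroup G) ∧
      ∀ ζ : Ω, ζ ^ ℓ = 1 → (γ : Ω ≃ₐ[ZMod p] Ω) ζ = ζ := by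
    intro γ
    rw [Subgroup.mem_subgroupOf, hH₁]
    constructor
    · rintro ⟨⟨_, h, h'⟩, -⟩
      exact ⟨h, h'⟩
    · rintro ⟨h, h'⟩
      exact ⟨⟨hle γ.2, h, h'⟩, γ.2⟩
  obtain ⟨hfin, hcopH⟩ := h3 p Ω y hst₁ ℓ hℓF hℓp G ψ₀ hψ₀s P H₂ hmem
  let ι : H₂ →* H₁ :=
    { toFun := fun γ => ⟨((γ : Gx p y) : Ω ≃ₐ[ZMod p] Ω), γ.2⟩
      map_one' := rfl
      map_mul' := fun _ _ => rfl }
  let ρ₂ : H₂ →* E := P'.subtype.comp (ρ₁.comp ι)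
  have hρ₂ : ∀ h : H₂, f (ρ₂ h) = ψ₀ h := by
    intro h
    have hm : ((h : Gx p y) : Ω ≃ₐ[ZMod p] Ω) ∈ H₁ := h.2
    have hm' : ((h : Gx p y) : Ω ≃ₐ[ZMod p] Ω) ∈ H := by
      rw [hH₁] at hm
      exact hm.1
    exact congrArg Subtype.val (hρ₁ _ hm hm')
  obtain ⟨ψ', hψ'f, hψ'w⟩ :=
    h2 (Gx p y) E G H₂ ℓ hcopH f hfℓ hfc ψ₀ (fun γ => hf _) ρ₂ hρ₂
  have hρ₂1 : ∀ (γ : Gx p y) (h : γ ∈ H₂), ρ₁ ⟨(γ : Ω ≃ₐ[ZMod p] Ω), h⟩ = 1 →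
      ρ₂ ⟨γ, h⟩ = 1 := by
    intro γ h h'
    have h6 : ρ₂ ⟨γ, h⟩ = ((ρ₁ ⟨(γ : Ω ≃ₐ[ZMod p] Ω), h⟩ : P') : E) := rfl
    rw [h6, h']
    rfl
  refine ⟨y, hle, hg₀, ψ', ?_, fun γ h' h => by rw [hψ'f, hψ₀ γ h' h]⟩
  -- finite level
  obtain ⟨Sf, hSf⟩ := hfin₁
  apply fin_lift h4 hst₁ ((Sψ ∪ Sμ) ∪ Sf)
  intro w hw
  apply hψ'w
  intro g
  have h6 : ((g⁻¹ * w * g : Gx p y) : Ω ≃ₐ[ZMod p] Ω) ∈ H₁ := by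
    rw [hH₁]
    exact ⟨hSH _ (hle (g⁻¹ * w * g).2) fun s hs => hw g s (Finset.mem_union_left _ hs),
      (g⁻¹ * w * g).2⟩
  exact ⟨h6, hρ₂1 _ _ (hSf _ fun s hs => hw g s (Finset.mem_union_right _ hs))⟩

end MP7K
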