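import Pool.Agent.Lib.MP_7f581e_K.MainI
import Pool.Agent.Lib.MP_7f581e_K.P2.Main
import Pool.Agent.Lib.MP_7f581e_K.L.Val
import Pool.Agent.Lib.MP_7f581e_K.L.NumC
import Pool.Agent.Lib.MP_7f581e_K.L.LocW
import Pool.Agent.Lib.MP_7f581e_K.L.NEW
import Pool.Agent.Lib.MP_7f581e_K.L.LevX
import Pool.Agent.Lib.MP_7f581e_K.L.DatX
import Pool.Agent.Lib.MP_7f581e_K.L.Cmp
import Pool.Agent.Lib.MP_7f581e_K.L.Dvd
import Pool.Agent.Lib.MP_7f581e_K.L.BackF
import Pool.Agent.Lib.MP_7f581e_K.L.CSW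
import Pool.Agent.Lib.MP_7f581e_K.L.ChainW
import Pool.Agent.Lib.MP_7f581e_K.L.WeakW
import Pool.Agent.Lib.MP_7f581e_Z.CS.All
import Pool.Agent.Lib.MP_7f581e_Z.EPL.Gas
import Pool.Agent.Lib.MP_7f581e_Z.EPL.Idx
import Pool.Agent.Lib.MP_7f581e_Z.EPL.StabS

/-!
# C33, Part III, complete: the weak solution
-/

set_option autoImplicit false

namespace MP7K

open MP7Z MP7Z.EPL

theorem aDatX : LStmtDatX :=
  lDatX br_cst (lLevX br_lvl br_frbK br_gal) cs_tl (ctFr ctH90f)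

theorem aCSW : LStmtCSW :=
  lCSW br_cst br_lvl br_frbK br_gal cs_den lemmaA aDatX lCmp lDvd (lLocW lVal lNumC ctNumB)
    (lNEW ff_hn ctH90c) (lBackF (ctBExt br_cst br_frb))

theorem aChainW : LStmtChainW := lChainW aCSW k2BaseW

/-- **(III.2).** -/
theorem weakW : WeakW := lWeakW aChainW gasStmt idxStmt stabSStmt

end MP7K
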